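import Mathlib

set_option autoImplicit false

open Real Finset

namespace Pool.Agent.Lib.MP_a2cf47_nt

/-- The positive lattice points `(k, m)` with `m ≤ α √β - k β`. -/
def pts (β α : ℝ) : Set (ℕ × ℕ) :=
  {x | 0 < x.1 ∧ 0 < x.2 ∧ (x.2 : ℝ) ≤ α * √β - x.1 * β}

/-- `N_β(α)`. -/
noncomputable def N (β α : ℝ) : ℕ := (pts β α).ncard

/-- the height of the `j`-th column -/
noncomputable def xx (β α : ℝ) (j : ℕ) : ℝ := α * √β - j * β

theorem pts_eq_image {β α : ℝ} (hβ : 0 < β) (n : ℕ) (hn : α / √β < n + 1) :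
    pts β α = (((range n).sigma (fun j => range ⌊xx β α (j + 1)⌋₊)).image
      (fun p : (_ : ℕ) × ℕ => ((p.1 + 1, p.2 + 1) : ℕ × ℕ)) : Finset (ℕ × ℕ)) := by
  ext ⟨k, m⟩
  simp only [pts, Set.mem_ofPred_eq, coe_image, Set.mem_image, mem_coe, Finset.mem_sigma,
    Finset.mem_range, Prod.mk.injEq]
  constructor
  · rintro ⟨hk, hm, h⟩
    refine ⟨⟨k - 1, m - 1⟩, ⟨?_, ?_⟩, by simp; omega, by simp; omega⟩
    · simp only
      by_contra hcon
      have hk2 : n + 1 ≤ k := by omega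
      have hk3 : ((n : ℝ) + 1) ≤ k := by exact_mod_cast hk2
      have hs : 0 < √β := Real.sqrt_pos.2 hβ
      have h1 : α / √β < k := lt_of_lt_of_le hn hk3
      have h2 : α < k * √β := by rwa [div_lt_iff₀ hs] at h1
      have h3 : α * √β < k * β := by
        have := mul_lt_mul_of_pos_right h2 hs
        rwa [mul_assoc, Real.mul_self_sqrt hβ.le] at this
      have h4 : (0 : ℝ) < m := by exact_mod_cast hm
      linarith
    · simp only
      have h1 : (m : ℝ) ≤ xx β α (k - 1 + 1) := by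
        have : k - 1 + 1 = k := by omega
        rw [this]; exact h
      have := Nat.le_floor h1
      omega
  · rintro ⟨⟨j, i⟩, ⟨hj, hi⟩, rfl, rfl⟩
    simp only at hj hi ⊢
    refine ⟨by omega, by omega, ?_⟩
    have h1 : i + 1 ≤ ⌊xx β α (j + 1)⌋₊ := hi
    have h2 := (Nat.le_floor_iff' (by omega)).1 h1
    simpa [xx] using h2

theorem pts_finite {β α : ℝ} (hβ : 0 < β) : (pts β α).Finite := by
  obtain ⟨n, hn⟩ := exists_nat_gt (α / √β)
  rw [pts_eq_image hβ n (by linarith)]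
  exact Finset.finite_toSet _

theorem N_eq_sum {β α : ℝ} (hβ : 0 < β) (n : ℕ) (hn : α / √β < n + 1) :
    N β α = ∑ j ∈ range n, ⌊xx β α (j + 1)⌋₊ := by
  unfold N
  rw [pts_eq_image hβ n hn, Set.ncard_coe_finset, Finset.card_image_of_injective, Finset.card_sigma]
  · simp
  · rintro ⟨a, b⟩ ⟨c, d⟩ h
    simp only [Prod.mk.injEq] at h
    obtain ⟨h1, h2⟩ := h
    have h3 : a = c := by omega
    have h4 : b = d := by omega
    subst h3 h4
    rfl

/-- sum of the column heights -/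
theorem sum_xx (β α : ℝ) (n : ℕ) :
    ∑ j ∈ range n, xx β α (j + 1) = n * (α * √β) - β * (n * (n + 1) / 2) := by
  induction n with
  | zero => simp
  | succ n ih =>
    rw [Finset.sum_range_succ, ih]
    simp only [xx]
    push_cast
    ring

/-- pairing `j ↔ J - j` -/
theorem sum_fract_ge (β α : ℝ) (J : ℕ) :
    (J : ℝ) / 2 * Int.fract (2 * (α * √β) - (J + 1) * β) ≤
      ∑ j ∈ range J, Int.fract (xx β α (j + 1)) := by
  have h1 : ∑ j ∈ range J, Int.fract (xx β α (j + 1))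
      = ∑ j ∈ range J, Int.fract (xx β α (J - 1 - j + 1)) := by
    rw [← Finset.sum_range_reflect]
  have h2 : 2 * ∑ j ∈ range J, Int.fract (xx β α (j + 1))
      = ∑ j ∈ range J, (Int.fract (xx β α (j + 1)) + Int.fract (xx β α (J - 1 - j + 1))) := by
    rw [Finset.sum_add_distrib, ← h1]; ring
  have h3 : ∑ j ∈ range J, Int.fract (2 * (α * √β) - (J + 1) * β)
      ≤ ∑ j ∈ range J, (Int.fract (xx β α (j + 1)) + Int.fract (xx β α (J - 1 - j + 1))) := by
    apply Finset.sum_le_sum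
    intro j hj
    rw [Finset.mem_range] at hj
    refine le_trans (le_of_eq ?_) (Int.fract_add_le _ _)
    congr 1
    simp only [xx]
    have : ((J - 1 - j + 1 : ℕ) : ℝ) = J - j := by
      have h5 : J - 1 - j + 1 = J - j := by omega
      rw [h5, Nat.cast_sub hj.le]
    rw [this]
    push_cast
    ring
  rw [Finset.sum_const, card_range, nsmul_eq_mul, ← h2] at h3
  linarith

/-- The pairing upper bound. -/
theorem N_le_pairing {β α : ℝ} (hβ : 0 < β) (hα : 0 ≤ α) (J : ℕ) (hJ : J ≤ ⌊α / √β⌋₊) :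
    (N β α : ℝ) ≤ α ^ 2 / 2 - α * √β / 2 + β / 8
      - (J : ℝ) / 2 * Int.fract (2 * (α * √β) - (J + 1) * β) := by
  have hs : 0 < √β := Real.sqrt_pos.2 hβ
  have hss : √β * √β = β := Real.mul_self_sqrt hβ.le
  set n := ⌊α / √β⌋₊ with hn
  have hn1 : (n : ℝ) ≤ α / √β := Nat.floor_le (by positivity)
  have hn2 : α / √β < n + 1 := Nat.lt_floor_add_one _
  rw [N_eq_sum hβ n hn2]
  push_cast
  have h1 : ∑ j ∈ range n, ((⌊xx β α (j + 1)⌋₊ : ℕ) : ℝ)
      = ∑ j ∈ range n, (xx β α (j + 1) - Int.fract (xx β α (j + 1))) := by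
    apply Finset.sum_congr rfl
    intro j hj
    rw [Finset.mem_range] at hj
    have h2 : 0 ≤ xx β α (j + 1) := by
      have h3 : ((j + 1 : ℕ) : ℝ) ≤ α / √β := by
        refine le_trans ?_ hn1
        exact_mod_cast hj
      rw [le_div_iff₀ hs] at h3
      have h4 := mul_le_mul_of_nonneg_right h3 hs.le
      rw [mul_assoc, hss] at h4
      simp only [xx]
      linarith
    rw [natCast_floor_eq_intCast_floor h2, Int.self_sub_fract]
  rw [h1, Finset.sum_sub_distrib, sum_xx]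
  have h5 : ∑ j ∈ range J, Int.fract (xx β α (j + 1)) ≤ ∑ j ∈ range n, Int.fract (xx β α (j + 1)) :=
    Finset.sum_le_sum_of_subset_of_nonneg (by simpa using hJ) (fun _ _ _ => Int.fract_nonneg _)
  have h6 := sum_fract_ge β α J
  have h7 : (n : ℝ) * (α * √β) - β * (n * (n + 1) / 2) ≤ α ^ 2 / 2 - α * √β / 2 + β / 8 := by
    have e1 : α = (α / √β) * √β := by field_simp
    set y := α / √β with hy
    rw [e1]
    have e2 : (n : ℝ) * (y * √β * √β) - β * (n * (n + 1) / 2)
        = β * (n * y - n * (n + 1) / 2) := by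
      rw [mul_assoc y, hss]; ring
    rw [e2]
    have e3 : (y * √β) ^ 2 / 2 - y * √β * √β / 2 + β / 8 = β * (y ^ 2 / 2 - y / 2 + 1 / 8) := by
      rw [mul_pow, mul_assoc y, hss, pow_two √β, hss]; ring
    rw [e3]
    apply mul_le_mul_of_nonneg_left _ hβ.le
    nlinarith [sq_nonneg (y - n - 1 / 2)]
  linarith

end Pool.Agent.Lib.MP_a2cf47_nt
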