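import Mathlib

set_option autoImplicit false

open Real Finset

namespace Pool.Agent.Lib.MP_a2cf47_nt

/-- Fejér type expansion of one factor -/
theorem factor_expand (θ : ℝ) (M : ℕ) :
    (((1 + Real.cos (2 * π * θ)) / 2 : ℝ) : ℂ) ^ M
      = ∑ j ∈ range (2 * M + 1), ((Nat.choose (2 * M) j : ℂ) / 4 ^ M)
          * Complex.exp (2 * π * Complex.I * ((j : ℂ) - M) * θ) := by
  set E : ℂ := Complex.exp (π * Complex.I * θ) with hE
  set E' : ℂ := Complex.exp (-(π * Complex.I * θ)) with hE'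
  have hEE' : E * E' = 1 := by rw [hE, hE', ← Complex.exp_add]; simp
  have h1 : (((1 + Real.cos (2 * π * θ)) / 2 : ℝ) : ℂ) = (E + E') ^ 2 / 4 := by
    push_cast
    have h2 : Complex.cos (2 * π * θ) = (E ^ 2 + E' ^ 2) / 2 := by
      rw [Complex.cos, hE, hE', ← Complex.exp_nat_mul, ← Complex.exp_nat_mul]
      congr 2
      · congr 1; push_cast; ring
      · congr 1; push_cast; ring
    rw [h2]
    linear_combination (-1 / 2 : ℂ) * hEE'
  rw [h1, div_pow, ← pow_mul, add_pow, Finset.sum_div]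
  apply Finset.sum_congr rfl
  intro j hj
  rw [Finset.mem_range] at hj
  have h3 : E ^ j * E' ^ (2 * M - j) = Complex.exp (2 * π * Complex.I * ((j : ℂ) - M) * θ) := by
    rw [hE, hE', ← Complex.exp_nat_mul, ← Complex.exp_nat_mul, ← Complex.exp_add]
    congr 1
    rw [Nat.cast_sub (by omega)]
    push_cast; ring
  rw [h3]
  ring

theorem geom_bound (z : ℂ) (hz : ‖z‖ = 1) (hz1 : z ≠ 1) (N0 n : ℕ) :
    ‖∑ t ∈ range n, z ^ (N0 + t)‖ ≤ 2 / ‖z - 1‖ := by
  have h1 : ∑ t ∈ range n, z ^ (N0 + t) = z ^ N0 * ((z ^ n - 1) / (z - 1)) := by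
    rw [← geom_sum_eq hz1, Finset.mul_sum]
    exact Finset.sum_congr rfl (fun t _ => pow_add _ _ _)
  rw [h1, norm_mul, norm_pow, hz, one_pow, one_mul, norm_div]
  apply div_le_div_of_nonneg_right _ (norm_nonneg _)
  calc ‖z ^ n - 1‖ ≤ ‖z ^ n‖ + ‖(1 : ℂ)‖ := norm_sub_le _ _
    _ = 2 := by rw [norm_pow, hz]; norm_num

variable {ι : Type*} [Fintype ι] [DecidableEq ι]

/-- frequencies -/
noncomputable def Zf (ω : ι → ℝ) (M : ℕ) (J : ι → ℕ) : ℂ :=
  Complex.exp (2 * π * Complex.I * ((∑ i, (((J i : ℤ) - (M : ℤ) : ℤ) : ℝ) * ω i : ℝ) : ℂ))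

noncomputable def Af (x : ι → ℝ) (M : ℕ) (J : ι → ℕ) : ℂ :=
  ∏ i, ((Nat.choose (2 * M) (J i) : ℂ) / 4 ^ M)
    * Complex.exp (2 * π * Complex.I * ((J i : ℂ) - M) * x i)

theorem prod_expand (ω x : ι → ℝ) (M t : ℕ) :
    (((∏ i, (1 + Real.cos (2 * π * (t * ω i + x i))) / 2 : ℝ)) : ℂ) ^ M
      = ∑ J ∈ Fintype.piFinset (fun _ : ι => range (2 * M + 1)), Af x M J * Zf ω M J ^ t := by
  rw [Complex.ofReal_prod, ← Finset.prod_pow]
  have h1 : ∀ i ∈ (univ : Finset ι),
      (((1 + Real.cos (2 * π * (t * ω i + x i))) / 2 : ℝ) : ℂ) ^ M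
      = ∑ j ∈ range (2 * M + 1), ((Nat.choose (2 * M) j : ℂ) / 4 ^ M)
          * Complex.exp (2 * π * Complex.I * ((j : ℂ) - M) * ((t * ω i + x i : ℝ) : ℂ)) :=
    fun i _ => factor_expand _ _
  rw [Finset.prod_congr rfl h1, Finset.prod_univ_sum]
  apply Finset.sum_congr rfl
  intro J _
  unfold Af Zf
  have h2 : Complex.exp (2 * π * Complex.I *
      ((∑ i, (((J i : ℤ) - (M : ℤ) : ℤ) : ℝ) * ω i : ℝ) : ℂ)) ^ t
      = ∏ i, Complex.exp (2 * π * Complex.I * ((J i : ℂ) - M) * (t * ω i)) := by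
    rw [← Complex.exp_sum, ← Complex.exp_nat_mul]
    congr 1
    push_cast
    rw [Finset.mul_sum, Finset.mul_sum]
    apply Finset.sum_congr rfl
    intro i _
    ring
  rw [h2, ← Finset.prod_mul_distrib]
  apply Finset.prod_congr rfl
  intro i _
  have e : ∀ A y z : ℂ, A * Complex.exp y * Complex.exp z = A * Complex.exp (y + z) := by
    intro A y z; rw [mul_assoc, ← Complex.exp_add]
  rw [e]
  congr 2
  push_cast
  ring

theorem kronecker (ω : ι → ℝ)
    (hω : ∀ h : ι → ℤ, h ≠ 0 → ∀ j : ℤ, ∑ i, (h i : ℝ) * ω i ≠ j)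
    (x : ι → ℝ) {ε : ℝ} (hε : 0 < ε) (N0 : ℕ) :
    ∃ t : ℕ, N0 ≤ t ∧ ∀ i, ∃ m : ℤ, |t * ω i + x i - m| < ε := by
  -- reduce to small ε
  wlog hε2 : ε ≤ 1 / 2 with H
  · obtain ⟨t, ht, h⟩ := H ω hω x (ε := 1 / 2) (by norm_num) N0 le_rfl
    refine ⟨t, ht, fun i => ?_⟩
    obtain ⟨m, hm⟩ := h i
    exact ⟨m, lt_trans hm (by linarith)⟩
  by_contra hcon
  push Not at hcon
  set q : ℝ := (1 + Real.cos (2 * π * ε)) / 2 with hq
  have hq0 : 0 ≤ q := by
    have := Real.neg_one_le_cos (2 * π * ε)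
    rw [hq]; linarith
  have hq1 : q < 1 := by
    have : Real.cos (2 * π * ε) < 1 := by
      rw [← Real.cos_zero]
      apply Real.cos_lt_cos_of_nonneg_of_le_pi le_rfl
      · nlinarith [Real.pi_pos]
      · positivity
    rw [hq]; linarith
  set g : ℕ → ℝ := fun t => ∏ i, (1 + Real.cos (2 * π * (t * ω i + x i))) / 2 with hg
  have hf0 : ∀ y : ℝ, 0 ≤ (1 + Real.cos (2 * π * y)) / 2 := by
    intro y; have := Real.neg_one_le_cos (2 * π * y); linarith
  have hf1 : ∀ y : ℝ, (1 + Real.cos (2 * π * y)) / 2 ≤ 1 := by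
    intro y; have := Real.cos_le_one (2 * π * y); linarith
  have hgq : ∀ t, N0 ≤ t → g t ≤ q := by
    intro t ht
    obtain ⟨i, hi⟩ := hcon t ht
    have hyi : (1 + Real.cos (2 * π * (t * ω i + x i))) / 2 ≤ q := by
      set y := t * ω i + x i with hy
      have h1 := hi (round y)
      have h2 : |y - round y| ≤ 1 / 2 := abs_sub_round y
      have h3 : Real.cos (2 * π * y) = Real.cos (2 * π * |y - round y|) := by
        have h4 : 2 * π * y = 2 * π * (y - round y) + (round y : ℤ) * (2 * π) := by ring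
        rw [h4, Real.cos_add_int_mul_two_pi]
        rcases abs_choice (y - round y) with h5 | h5 <;> rw [h5]
        rw [mul_neg, Real.cos_neg]
      have h6 : Real.cos (2 * π * |y - round y|) ≤ Real.cos (2 * π * ε) := by
        apply Real.cos_le_cos_of_nonneg_of_le_pi (by positivity)
        · nlinarith [Real.pi_pos]
        · nlinarith [Real.pi_pos]
      rw [hq, h3]; linarith
    calc g t = ((1 + Real.cos (2 * π * (t * ω i + x i))) / 2)
          * ∏ j ∈ univ.erase i, (1 + Real.cos (2 * π * (t * ω j + x j))) / 2 :=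
          (Finset.mul_prod_erase _ _ (Finset.mem_univ i)).symm
      _ ≤ q * 1 := by
          apply mul_le_mul hyi _ (Finset.prod_nonneg fun j _ => hf0 _) hq0
          exact Finset.prod_le_one (fun j _ => hf0 _) (fun j _ => hf1 _)
      _ = q := mul_one q
  have hg0 : ∀ t, 0 ≤ g t := fun t => Finset.prod_nonneg fun j _ => hf0 _
  -- main inequality
  have hmain : ∀ M : ℕ, ((Nat.centralBinom M : ℝ) / 4 ^ M) ^ (Fintype.card ι) ≤ q ^ M := by
    intro M
    set S := Fintype.piFinset (fun _ : ι => range (2 * M + 1)) with hS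
    set J0 : ι → ℕ := fun _ => M with hJ0
    have hJ0S : J0 ∈ S := by
      rw [hS, Fintype.mem_piFinset]; intro i; simp [hJ0]; omega
    set a0 : ℝ := ((Nat.centralBinom M : ℝ) / 4 ^ M) ^ (Fintype.card ι) with ha0
    have hA0 : Af x M J0 = (a0 : ℂ) := by
      unfold Af
      simp only [hJ0, sub_self, mul_zero, zero_mul, Complex.exp_zero, mul_one]
      rw [Finset.prod_const, Finset.card_univ, ha0]
      push_cast
      rfl
    have hZ0 : Zf ω M J0 = 1 := by
      unfold Zf; simp [hJ0]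
    have hZ1 : ∀ J, J ≠ J0 → Zf ω M J ≠ 1 := by
      intro J hJ h1
      unfold Zf at h1
      rw [Complex.exp_eq_one_iff] at h1
      obtain ⟨n, hn⟩ := h1
      have h2 : (∑ i, (((J i : ℤ) - (M : ℤ) : ℤ) : ℝ) * ω i) = (n : ℝ) := by
        have h3 : (2 * π * Complex.I : ℂ) ≠ 0 := Complex.two_pi_I_ne_zero
        have h4 : (2 * π * Complex.I : ℂ) * ((∑ i, (((J i : ℤ) - (M : ℤ) : ℤ) : ℝ) * ω i : ℝ) : ℂ)
            = (2 * π * Complex.I) * (n : ℂ) := by rw [hn]; ring
        have h5 := mul_left_cancel₀ h3 h4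
        exact_mod_cast h5
      refine hω (fun i => (J i : ℤ) - M) ?_ n h2
      intro h0
      apply hJ
      funext i
      have := congrFun h0 i
      simp only [Pi.zero_apply] at this
      simp only [hJ0]
      omega
    have hZn : ∀ J, ‖Zf ω M J‖ = 1 := by
      intro J
      unfold Zf
      rw [show (2 * π * Complex.I * ((∑ i, (((J i : ℤ) - (M : ℤ) : ℤ) : ℝ) * ω i : ℝ) : ℂ))
        = ((2 * π * (∑ i, (((J i : ℤ) - (M : ℤ) : ℤ) : ℝ) * ω i) : ℝ) : ℂ) * Complex.I by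
          push_cast; ring]
      exact Complex.norm_exp_ofReal_mul_I _
    set C : ℝ := ∑ J ∈ S.erase J0, ‖Af x M J‖ * (2 / ‖Zf ω M J - 1‖) with hC
    have hn : ∀ n : ℕ, (n : ℝ) * a0 - C ≤ n * q ^ M := by
      intro n
      have h1 : ((∑ t ∈ range n, (g (N0 + t)) ^ M : ℝ) : ℂ)
          = n * a0 + ∑ J ∈ S.erase J0, Af x M J * ∑ t ∈ range n, Zf ω M J ^ (N0 + t) := by
        push_cast
        have h2 : ∀ t ∈ range n, ((g (N0 + t) : ℝ) : ℂ) ^ M
            = ∑ J ∈ S, Af x M J * Zf ω M J ^ (N0 + t) := fun t _ => prod_expand ω x M (N0 + t)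
        rw [Finset.sum_congr rfl h2, Finset.sum_comm, ← Finset.add_sum_erase _ _ hJ0S]
        congr 1
        · rw [hA0, hZ0]; simp
        · apply Finset.sum_congr rfl
          intro J _
          rw [Finset.mul_sum]
      have h3 : ‖∑ J ∈ S.erase J0, Af x M J * ∑ t ∈ range n, Zf ω M J ^ (N0 + t)‖ ≤ C := by
        rw [hC]
        refine le_trans (norm_sum_le _ _) (Finset.sum_le_sum ?_)
        intro J hJ
        rw [norm_mul]
        exact mul_le_mul_of_nonneg_left
          (geom_bound _ (hZn J) (hZ1 J (Finset.ne_of_mem_erase hJ)) N0 n) (norm_nonneg _)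
      have h4 : (∑ t ∈ range n, (g (N0 + t)) ^ M : ℝ) ≤ n * q ^ M := by
        calc _ ≤ ∑ t ∈ range n, q ^ M :=
              Finset.sum_le_sum fun t _ => pow_le_pow_left₀ (hg0 _) (hgq _ (by omega)) M
          _ = n * q ^ M := by rw [Finset.sum_const, card_range, nsmul_eq_mul]
      have h5 := congrArg Complex.re h1
      rw [Complex.ofReal_re, Complex.add_re] at h5
      have h6 : ((n : ℂ) * (a0 : ℂ)).re = n * a0 := by
        rw [show (n : ℂ) * (a0 : ℂ) = ((n * a0 : ℝ) : ℂ) by push_cast; ring, Complex.ofReal_re]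
      rw [h6] at h5
      have h7 := Complex.abs_re_le_norm
        (∑ J ∈ S.erase J0, Af x M J * ∑ t ∈ range n, Zf ω M J ^ (N0 + t))
      have h8 := neg_abs_le
        (∑ J ∈ S.erase J0, Af x M J * ∑ t ∈ range n, Zf ω M J ^ (N0 + t)).re
      linarith
    by_contra hlt
    push Not at hlt
    obtain ⟨n, hnn⟩ := exists_nat_gt (C / (a0 - q ^ M))
    have h9 : 0 < a0 - q ^ M := by linarith
    rw [div_lt_iff₀ h9] at hnn
    have := hn n
    nlinarith
  -- contradiction for large M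
  set m := Fintype.card ι with hm
  have hlim : Filter.Tendsto (fun M : ℕ => ((M : ℝ)) ^ m * q ^ M) Filter.atTop (nhds 0) :=
    tendsto_pow_const_mul_const_pow_of_lt_one m hq0 hq1
  have hlim2 : Filter.Tendsto (fun M : ℕ => (2 : ℝ) ^ m * ((M : ℝ) ^ m * q ^ M)) Filter.atTop (nhds 0) := by
    have := hlim.const_mul ((2 : ℝ) ^ m)
    simpa using this
  have hev := (hlim2.eventually (gt_mem_nhds (show (0 : ℝ) < 1 by norm_num))).and
    (Filter.eventually_ge_atTop 1)
  obtain ⟨M, hM1, hM2⟩ := hev.exists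
  have h10 := hmain M
  have h11 : (1 : ℝ) / (2 * M) ≤ (Nat.centralBinom M : ℝ) / 4 ^ M := by
    have hMr : (0 : ℝ) < M := by exact_mod_cast hM2
    rw [div_le_div_iff₀ (by positivity) (by positivity)]
    have := Nat.four_pow_le_two_mul_self_mul_centralBinom M (by omega)
    have h12 : ((4 ^ M : ℕ) : ℝ) ≤ ((2 * M * Nat.centralBinom M : ℕ) : ℝ) := by exact_mod_cast this
    push_cast at h12
    linarith
  have hMr : (0 : ℝ) < M := by exact_mod_cast hM2
  have h13 : ((1 : ℝ) / (2 * M)) ^ m ≤ q ^ M := le_trans (pow_le_pow_left₀ (by positivity) h11 m) h10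
  have h14 : (1 : ℝ) ≤ (2 * M) ^ m * q ^ M := by
    have h15 := mul_le_mul_of_nonneg_left h13 (by positivity : (0 : ℝ) ≤ (2 * M) ^ m)
    rw [← mul_pow, mul_one_div_cancel (by positivity), one_pow] at h15
    exact h15
  rw [mul_pow, mul_assoc] at h14
  linarith

end Pool.Agent.Lib.MP_a2cf47_nt
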