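import Mathlib

set_option autoImplicit false

open Finset

namespace Pool.Agent.Lib.MP_a2cf47_nt

/-- adjoin a square root -/
def sqExt (K : Subfield ℝ) (s : ℝ) (hs : s ^ 2 ∈ K) : Subfield ℝ where
  carrier := {x | ∃ A ∈ K, ∃ B ∈ K, x = A + B * s}
  mul_mem' := by
    rintro x y ⟨A, hA, B, hB, rfl⟩ ⟨C, hC, D, hD, rfl⟩
    refine ⟨A * C + B * D * s ^ 2, K.add_mem (K.mul_mem hA hC) (K.mul_mem (K.mul_mem hB hD) hs),
      A * D + B * C, K.add_mem (K.mul_mem hA hD) (K.mul_mem hB hC), by ring⟩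
  one_mem' := ⟨1, K.one_mem, 0, K.zero_mem, by ring⟩
  add_mem' := by
    rintro x y ⟨A, hA, B, hB, rfl⟩ ⟨C, hC, D, hD, rfl⟩
    exact ⟨A + C, K.add_mem hA hC, B + D, K.add_mem hB hD, by ring⟩
  zero_mem' := ⟨0, K.zero_mem, 0, K.zero_mem, by ring⟩
  neg_mem' := by
    rintro x ⟨A, hA, B, hB, rfl⟩
    exact ⟨-A, K.neg_mem hA, -B, K.neg_mem hB, by ring⟩
  inv_mem' := by
    rintro x ⟨A, hA, B, hB, rfl⟩
    by_cases h : A ^ 2 - B ^ 2 * s ^ 2 = 0
    · -- then `A + B s ∈ K`
      have hmem : A + B * s ∈ K := by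
        by_cases hB0 : B = 0
        · rw [hB0]; simpa using hA
        · have h2 : (A - B * s) * (A + B * s) = 0 := by linear_combination h
          rcases mul_eq_zero.1 h2 with h3 | h3
          · have : s = A / B := by field_simp; linarith
            rw [this]
            exact K.add_mem hA (K.mul_mem hB (K.div_mem hA hB))
          · rw [h3]; exact K.zero_mem
      exact ⟨(A + B * s)⁻¹, K.inv_mem hmem, 0, K.zero_mem, by ring⟩
    · have hD : A ^ 2 - B ^ 2 * s ^ 2 ∈ K :=
        K.sub_mem (K.pow_mem hA 2) (K.mul_mem (K.pow_mem hB 2) hs)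
      have hne : A + B * s ≠ 0 := by
        intro h0
        apply h
        linear_combination (A - B * s) * h0
      refine ⟨A / (A ^ 2 - B ^ 2 * s ^ 2), K.div_mem hA hD, -B / (A ^ 2 - B ^ 2 * s ^ 2),
        K.div_mem (K.neg_mem hB) hD, ?_⟩
      rw [inv_eq_iff_eq_inv, eq_comm, inv_eq_iff_eq_inv, eq_comm]
      field_simp
      ring

theorem mem_sqExt {K : Subfield ℝ} {s : ℝ} {hs : s ^ 2 ∈ K} {x : ℝ} :
    x ∈ sqExt K s hs ↔ ∃ A ∈ K, ∃ B ∈ K, x = A + B * s := Iff.rfl

theorem rat_mem (K : Subfield ℝ) (q : ℚ) : (q : ℝ) ∈ K := SubfieldClass.ratCast_mem K q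

theorem exists_field (S : Finset ℕ) (hS : ∀ p ∈ S, p.Prime) :
    ∃ K : Subfield ℝ, (∀ m : ℕ, m ∣ ∏ p ∈ S, p → √(m : ℝ) ∈ K) ∧
      (∀ x ∈ K, (∃ q : ℚ, x ^ 2 = q) → ∃ r : ℚ, ∃ m : ℕ, m ∣ ∏ p ∈ S, p ∧ x = r * √(m : ℝ)) ∧
      (∀ F : Finset ℕ, (∀ k ∈ F, k ∣ ∏ p ∈ S, p) → ∀ c : ℕ → ℚ,
        ∑ k ∈ F, (c k : ℝ) * √(k : ℝ) = 0 → ∀ k ∈ F, c k = 0) := by
  induction S using Finset.induction_on with
  | empty =>
    refine ⟨(Rat.castHom ℝ).fieldRange, ?_, ?_, ?_⟩
    · intro m hm
      simp only [Finset.prod_empty, Nat.dvd_one] at hm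
      subst hm
      simp only [Nat.cast_one, Real.sqrt_one]
      exact Subfield.one_mem _
    · rintro x ⟨q, rfl⟩ _
      exact ⟨q, 1, by simp, by simp⟩
    · intro F hF c h k hk
      have hF1 : F = {1} := by
        apply Finset.eq_singleton_iff_unique_mem.2
        have hk1 : k = 1 := by have := hF k hk; simpa using this
        refine ⟨hk1 ▸ hk, fun j hj => by have := hF j hj; simpa using this⟩
      rw [hF1] at h hk
      rw [Finset.mem_singleton] at hk
      subst hk
      simpa using h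
  | insert p S hpS ih =>
    obtain ⟨K, h1, h2, h3⟩ := ih (fun q hq => hS q (Finset.mem_insert_of_mem hq))
    have hp : p.Prime := hS p (Finset.mem_insert_self _ _)
    set P := ∏ q ∈ S, q with hP
    have hpP : ¬ p ∣ P := by
      intro h
      rw [hP, Prime.dvd_finsetProd_iff hp.prime] at h
      obtain ⟨q, hq, hpq⟩ := h
      have := (Nat.prime_dvd_prime_iff_eq hp (hS q (Finset.mem_insert_of_mem hq))).1 hpq
      exact hpS (this ▸ hq)
    have hprod : ∏ q ∈ insert p S, q = p * P := Finset.prod_insert hpS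
    have hs2 : √(p : ℝ) ^ 2 = p := Real.sq_sqrt (Nat.cast_nonneg _)
    have hs2K : √(p : ℝ) ^ 2 ∈ K := by rw [hs2]; exact natCast_mem K p
    -- √p is not in K
    have hnot : √(p : ℝ) ∉ K := by
      intro hmem
      obtain ⟨r, m, hm, hr⟩ := h2 _ hmem ⟨p, by rw [hs2]; simp⟩
      have h4 : (p : ℝ) = r ^ 2 * m := by
        rw [← hs2, hr, mul_pow, Real.sq_sqrt (Nat.cast_nonneg _)]
      have h5 : ¬ Irrational √((p * m : ℕ) : ℝ) := by
        have h6 : ((p * m : ℕ) : ℝ) = (r * m) ^ 2 := by push_cast; rw [h4]; ring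
        rw [h6, Real.sqrt_sq_eq_abs]
        intro hirr
        apply hirr
        refine ⟨|r * m|, ?_⟩
        push_cast; rfl
      rw [irrational_sqrt_natCast_iff, not_not] at h5
      obtain ⟨a, ha⟩ := h5
      have hpa : p ∣ a := by
        have : p ∣ a * a := ha ▸ Dvd.intro m rfl
        rcases (Nat.Prime.dvd_mul hp).1 this with h | h <;> exact h
      obtain ⟨b, rfl⟩ := hpa
      have h7 : m = p * (b * b) := by
        have : p * m = p * (p * (b * b)) := by rw [ha]; ring
        exact Nat.eq_of_mul_eq_mul_left hp.pos this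
      exact hpP (dvd_trans (Dvd.intro _ h7.symm) hm)
    refine ⟨sqExt K (√(p : ℝ)) hs2K, ?_, ?_, ?_⟩
    · intro m hm
      rw [hprod] at hm
      by_cases hpm : p ∣ m
      · obtain ⟨m', rfl⟩ := hpm
        have hm' : m' ∣ P := Nat.dvd_of_mul_dvd_mul_left hp.pos hm
        refine ⟨0, K.zero_mem, √(m' : ℝ), h1 m' hm', ?_⟩
        push_cast
        rw [Real.sqrt_mul (Nat.cast_nonneg _)]; ring
      · have hcop : Nat.Coprime m p := ((Nat.Prime.coprime_iff_not_dvd hp).2 hpm).symm
        have hm' : m ∣ P := hcop.dvd_of_dvd_mul_left hm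
        exact ⟨√(m : ℝ), h1 m hm', 0, K.zero_mem, by ring⟩
    · rintro x ⟨A, hA, B, hB, rfl⟩ ⟨q, hq⟩
      by_cases hB0 : B = 0
      · subst hB0
        have hx : A ^ 2 = q := by rw [← hq]; ring
        obtain ⟨r, m, hm, hr⟩ := h2 A hA ⟨q, hx⟩
        exact ⟨r, m, hprod ▸ Dvd.dvd.mul_left hm p, by rw [← hr]; ring⟩
      · by_cases hA0 : A = 0
        · subst hA0
          have hx : B ^ 2 = ((q / p : ℚ) : ℝ) := by
            have h5 : B ^ 2 * p = q := by rw [← hq]; linear_combination (-B ^ 2) * hs2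
            have hp0 : (p : ℝ) ≠ 0 := by exact_mod_cast hp.ne_zero
            push_cast
            field_simp
            linarith
          obtain ⟨r, m, hm, hr⟩ := h2 B hB ⟨_, hx⟩
          refine ⟨r, p * m, hprod ▸ Nat.mul_dvd_mul_left p hm, ?_⟩
          push_cast
          rw [Real.sqrt_mul (Nat.cast_nonneg _), hr]; ring
        · exfalso
          apply hnot
          have h5 : √(p : ℝ) = (q - A ^ 2 - B ^ 2 * p) / (2 * A * B) := by
            have : (q : ℝ) = A ^ 2 + B ^ 2 * p + 2 * A * B * √(p : ℝ) := by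
              rw [← hq]; linear_combination B ^ 2 * hs2
            rw [this]; field_simp; ring
          rw [h5]
          have h2K : (2 : ℝ) ∈ K := ofNat_mem K 2
          exact K.div_mem (K.sub_mem (K.sub_mem (rat_mem K q) (K.pow_mem hA 2))
            (K.mul_mem (K.pow_mem hB 2) (natCast_mem K p))) (K.mul_mem (K.mul_mem h2K hA) hB)
    · intro F hF c hsum
      rw [hprod] at hF
      -- split
      set F1 := F.filter (fun k => ¬ p ∣ k) with hF1
      set F2 := (F.filter (fun k => p ∣ k)).image (fun k => k / p) with hF2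
      have hF1d : ∀ k ∈ F1, k ∣ P := by
        intro k hk
        rw [hF1, Finset.mem_filter] at hk
        have hcop : Nat.Coprime k p := ((Nat.Prime.coprime_iff_not_dvd hp).2 hk.2).symm
        exact hcop.dvd_of_dvd_mul_left (hF k hk.1)
      have hF2d : ∀ k ∈ F2, k ∣ P := by
        intro k hk
        rw [hF2, Finset.mem_image] at hk
        obtain ⟨j, hj, rfl⟩ := hk
        rw [Finset.mem_filter] at hj
        obtain ⟨i, rfl⟩ := hj.2
        rw [Nat.mul_div_cancel_left _ hp.pos]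
        exact Nat.dvd_of_mul_dvd_mul_left hp.pos (hF _ hj.1)
      have hsum2 : ∑ k ∈ F.filter (fun k => p ∣ k), (c k : ℝ) * √(k : ℝ)
          = (∑ k ∈ F2, (c (p * k) : ℝ) * √(k : ℝ)) * √(p : ℝ) := by
        rw [hF2, Finset.sum_image, Finset.sum_mul]
        · apply Finset.sum_congr rfl
          intro k hk
          rw [Finset.mem_filter] at hk
          obtain ⟨i, rfl⟩ := hk.2
          rw [Nat.mul_div_cancel_left _ hp.pos]
          push_cast
          rw [Real.sqrt_mul (Nat.cast_nonneg _)]; ring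
        · intro i hi j hj hij
          simp only [Finset.coe_filter, Set.mem_ofPred_eq] at hi hj
          obtain ⟨i', rfl⟩ := hi.2
          obtain ⟨j', rfl⟩ := hj.2
          simp only [Nat.mul_div_cancel_left _ hp.pos] at hij
          rw [hij]
      have hsplit : (∑ k ∈ F1, (c k : ℝ) * √(k : ℝ))
          + (∑ k ∈ F2, (c (p * k) : ℝ) * √(k : ℝ)) * √(p : ℝ) = 0 := by
        rw [← hsum2, add_comm, hF1, Finset.sum_filter_add_sum_filter_not]
        exact hsum
      set A := ∑ k ∈ F1, (c k : ℝ) * √(k : ℝ) with hA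
      set B := ∑ k ∈ F2, (c (p * k) : ℝ) * √(k : ℝ) with hB
      have hAK : A ∈ K := K.sum_mem fun k hk => K.mul_mem (rat_mem K _) (h1 k (hF1d k hk))
      have hBK : B ∈ K := K.sum_mem fun k hk => K.mul_mem (rat_mem K _) (h1 k (hF2d k hk))
      have hB0 : B = 0 := by
        by_contra hne
        apply hnot
        have : √(p : ℝ) = -A / B := by field_simp; linarith
        rw [this]
        exact K.div_mem (K.neg_mem hAK) hBK
      have hA0 : A = 0 := by rw [hB0] at hsplit; linarith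
      have c1 := h3 F1 hF1d c hA0
      have c2 := h3 F2 hF2d (fun k => c (p * k)) hB0
      intro k hk
      by_cases hpk : p ∣ k
      · obtain ⟨i, rfl⟩ := hpk
        have hi : i ∈ F2 := by
          rw [hF2, Finset.mem_image]
          exact ⟨p * i, Finset.mem_filter.2 ⟨hk, Dvd.intro i rfl⟩,
            Nat.mul_div_cancel_left _ hp.pos⟩
        exact c2 i hi
      · exact c1 k (Finset.mem_filter.2 ⟨hk, hpk⟩)

/-- Square roots of distinct squarefree numbers are linearly independent over `ℚ`. -/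
theorem sqrt_indep (F : Finset ℕ) (hF : ∀ k ∈ F, Squarefree k) (c : ℕ → ℚ)
    (h : ∑ k ∈ F, (c k : ℝ) * √(k : ℝ) = 0) : ∀ k ∈ F, c k = 0 := by
  set S : Finset ℕ := F.biUnion (fun k => k.primeFactors) with hS
  obtain ⟨K, _, _, h3⟩ := exists_field S (by
    intro p hp
    rw [hS, Finset.mem_biUnion] at hp
    obtain ⟨k, _, hk⟩ := hp
    exact Nat.prime_of_mem_primeFactors hk)
  apply h3 F _ c h
  intro k hk
  rw [← Nat.prod_primeFactors_of_squarefree (hF k hk)]
  apply Finset.prod_dvd_prod_of_subset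
  exact Finset.subset_biUnion_of_mem (fun k => k.primeFactors) hk

end Pool.Agent.Lib.MP_a2cf47_nt
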