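import Pool.Agent.Lib.MP_a2cf47_nt.Upper3
import Pool.Agent.Lib.MP_a2cf47_nt.Kron
import Pool.Agent.Lib.MP_a2cf47_nt.SqrtIndep

set_option autoImplicit false

open Real Finset

namespace Pool.Agent.Lib.MP_a2cf47_nt

theorem R_symm (a b T : ℕ) : R a b T = R b a T := by
  unfold R
  have h : Rset a b T = Prod.swap '' Rset b a T := by
    ext ⟨k, m⟩
    simp only [Rset, Set.mem_image, Set.mem_ofPred_eq, Prod.exists, Prod.swap_prod_mk,
      Prod.mk.injEq]
    constructor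
    · rintro ⟨h1, h2, h3⟩
      exact ⟨m, k, ⟨h2, h1, by linarith⟩, rfl, rfl⟩
    · rintro ⟨m', k', ⟨h2, h1, h3⟩, rfl, rfl⟩
      exact ⟨h1, h2, by linarith⟩
  rw [h, Set.ncard_image_of_injective _ Prod.swap_injective]

theorem parity_aux {a b k s : ℕ} (hab : Nat.Coprime a b) (h : a * b = s ^ 2 * k) (_ha : 0 < a) :
    ∃ T : ℕ, 2 * T + 1 = s * (k % 2) + a + b := by
  have h1 : (Even a ∨ Even b) ↔ (Even s ∨ Even k) := by
    have h2 : Even (a * b) ↔ Even (s ^ 2 * k) := by rw [h]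
    simpa [Nat.even_mul, Nat.even_pow] using h2
  have h3 : ¬ (Even a ∧ Even b) := by
    rintro ⟨⟨x, hx⟩, ⟨y, hy⟩⟩
    have h4 : 2 ∣ Nat.gcd a b := Nat.dvd_gcd ⟨x, by omega⟩ ⟨y, by omega⟩
    rw [hab] at h4
    omega
  rcases Nat.even_or_odd k with hk | hk
  · have hk2 : k % 2 = 0 := Nat.even_iff.1 hk
    rw [hk2, mul_zero, zero_add]
    have h5 := h1.2 (Or.inr hk)
    rcases Nat.even_or_odd a with ha' | ha'
    · have hb' : Odd b := by
        rw [← Nat.not_even_iff_odd]; intro hb; exact h3 ⟨ha', hb⟩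
      obtain ⟨x, hx⟩ := ha'
      obtain ⟨y, hy⟩ := hb'
      exact ⟨x + y, by omega⟩
    · rcases h5 with h5 | h5
      · exact absurd h5 (Nat.not_even_iff_odd.2 ha')
      · obtain ⟨x, hx⟩ := ha'
        obtain ⟨y, hy⟩ := h5
        exact ⟨x + y, by omega⟩
  · have hk2 : k % 2 = 1 := Nat.odd_iff.1 hk
    rw [hk2, mul_one]
    rcases Nat.even_or_odd s with hs | hs
    · have h5 := h1.2 (Or.inl hs)
      obtain ⟨z, hz⟩ := hs
      rcases Nat.even_or_odd a with ha' | ha'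
      · have hb' : Odd b := by
          rw [← Nat.not_even_iff_odd]; intro hb; exact h3 ⟨ha', hb⟩
        obtain ⟨x, hx⟩ := ha'
        obtain ⟨y, hy⟩ := hb'
        exact ⟨x + y + z, by omega⟩
      · rcases h5 with h5 | h5
        · exact absurd h5 (Nat.not_even_iff_odd.2 ha')
        · obtain ⟨x, hx⟩ := ha'
          obtain ⟨y, hy⟩ := h5
          exact ⟨x + y + z, by omega⟩
    · have hno : ¬ (Even a ∨ Even b) := by
        rw [h1]
        rintro (h6 | h6)
        · exact (Nat.not_even_iff_odd.2 hs) h6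
        · exact (Nat.not_even_iff_odd.2 hk) h6
      push Not at hno
      obtain ⟨ha', hb'⟩ := hno
      rw [Nat.not_even_iff_odd] at ha' hb'
      obtain ⟨x, hx⟩ := ha'
      obtain ⟨y, hy⟩ := hb'
      obtain ⟨z, hz⟩ := hs
      exact ⟨x + y + z + 1, by omega⟩

/-- The count of the class member `a / b` at the special phases depends only on the class. -/
theorem R_special {a b k s M t T : ℕ} (ha : 0 < a) (hb : 0 < b) (hab : Nat.Coprime a b)
    (h : a * b = s ^ 2 * k) (hM : a * b ∣ M)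
    (hT : 2 * T + 1 = s * (k % 2 + 2 * M * t) + a + b) :
    8 * (k : ℤ) * (R a b T : ℤ) = ((k % 2 + 2 * M * t : ℕ) : ℤ) ^ 2 - ((k % 2 : ℕ) : ℤ) ^ 2 := by
  obtain ⟨T0, hT0⟩ := parity_aux hab h ha
  obtain ⟨M', rfl⟩ := hM
  have hs0 : 0 < s := by
    rcases Nat.eq_zero_or_pos s with h0 | h0
    · subst h0
      have : 0 < a * b := Nat.mul_pos ha hb
      simp at h; omega
    · exact h0
  have hTT : T = T0 + a * b * (s * M' * t) := by
    have : 2 * T + 1 = 2 * (T0 + a * b * (s * M' * t)) + 1 := by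
      rw [hT]
      have e : s * (k % 2 + 2 * (a * b * M') * t) = s * (k % 2) + 2 * (a * b * (s * M' * t)) := by
        ring
      rw [e]; omega
    omega
  have hR0 : R a b T0 = 0 := by
    apply R_small
    have h1 : s * (k % 2) ≤ s := by
      have : k % 2 ≤ 1 := by omega
      calc s * (k % 2) ≤ s * 1 := Nat.mul_le_mul_left s this
        _ = s := mul_one s
    have hk0 : 0 < k := by
      rcases Nat.eq_zero_or_pos k with h0 | h0
      · subst h0
        have : 0 < a * b := Nat.mul_pos ha hb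
        simp at h; omega
      · exact h0
    have h2 : s < a + b := by
      by_contra hcon
      push Not at hcon
      have h3 : s * s ≤ a * b := by
        rw [h]; nlinarith
      have h4 : (a + b) * (a + b) ≤ s * s := Nat.mul_le_mul hcon hcon
      nlinarith
    omega
  have hcl := R_closed T0 (s * M' * t) ha hb hab
  rw [← hTT, hR0] at hcl
  have hT0' : (2 : ℤ) * T0 - (a + b - 1) = s * ((k % 2 : ℕ) : ℤ) := by
    have : ((2 * T0 + 1 : ℕ) : ℤ) = ((s * (k % 2) + a + b : ℕ) : ℤ) := by rw [hT0]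
    push_cast at this ⊢
    linarith
  have hT' : (2 : ℤ) * (T0 + a * b * (s * M' * t : ℕ)) - (a + b - 1)
      = s * ((k % 2 + 2 * (a * b * M') * t : ℕ) : ℤ) := by
    have h5 : (2 : ℤ) * (T0 + a * b * (s * M' * t : ℕ)) - (a + b - 1)
        = (2 * T0 - (a + b - 1)) + 2 * (a * b * (s * M' * t : ℕ)) := by ring
    rw [h5, hT0']
    push_cast; ring
  rw [hT', hT0'] at hcl
  have hab2 : (a : ℤ) * b = s ^ 2 * k := by exact_mod_cast h
  rw [hab2] at hcl
  have hs2 : (s : ℤ) ^ 2 ≠ 0 := by positivity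
  apply mul_left_cancel₀ hs2
  push_cast at hcl ⊢
  rw [hab2] at hcl ⊢
  linarith

/-- both signs of the deviation, near a rational -/
theorem local_bound' {a b : ℕ} (ha : 0 < a) (hb : 0 < b) (hab : Nat.Coprime a b) {ν K : ℝ}
    (hν : 0 < ν) (hK : 0 ≤ K) :
    ∃ α₀ : ℝ, ∀ α : ℝ, α₀ ≤ α → ∀ T : ℕ, 2 * (α * √((a : ℝ) * b)) ≤ 2 * T + 1 - ν →
      ∀ β : ℝ, 9 / 64 ≤ β → |b * β - a| * α ≤ K → N β α ≤ R a b T := by
  obtain ⟨α₁, hα₁, h1⟩ := local_bound ha hb hab hν hK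
  obtain ⟨α₂, hα₂, h2⟩ := local_bound hb ha hab.symm hν (show 0 ≤ 8 * K by positivity)
  refine ⟨max α₁ α₂, ?_⟩
  intro α hα T hT β hβ hdev
  have hα1 : α₁ ≤ α := le_trans (le_max_left _ _) hα
  have hα2 : α₂ ≤ α := le_trans (le_max_right _ _) hα
  have hα0 : 0 < α := lt_of_lt_of_le hα₁ hα1
  have hβ0 : 0 < β := by linarith
  rcases le_or_gt 0 (b * β - a) with h | h
  · exact h1 α hα1 T hT β h (by rwa [abs_of_nonneg h] at hdev)
  · rw [← N_symm hβ0, R_symm]
    have e1 : (a : ℝ) * (1 / β) - b = (-(b * β - a)) / β := by field_simp; ring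
    rw [abs_of_neg h] at hdev
    apply h2 α hα2 T (by rwa [mul_comm (b : ℝ)])
    · rw [e1]; apply div_nonneg (by linarith) hβ0.le
    · rw [e1, div_mul_eq_mul_div, div_le_iff₀ hβ0]
      nlinarith

theorem two_sqrt_le {a b : ℝ} (ha : 0 ≤ a) (hb : 0 ≤ b) : 2 * √(a * b) ≤ a + b := by
  have h2 : √(a * b) = √a * √b := Real.sqrt_mul ha _
  have h3 : √a ^ 2 = a := Real.sq_sqrt ha
  have h4 : √b ^ 2 = b := Real.sq_sqrt hb
  nlinarith [sq_nonneg (√a - √b)]

theorem nu_pos {a b x : ℝ} (ha : 0 < a) (hb : 0 < b) (hx : x < 1) :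
    0 < a + b - 2 * x * √(a * b) := by
  have h1 := two_sqrt_le ha.le hb.le
  have h5 : 0 < √(a * b) := Real.sqrt_pos.2 (by positivity)
  nlinarith

theorem one_div_le_sqrt {a b B : ℝ} (ha : 1 ≤ a) (hb : 0 < b) (hB : 1 ≤ B) (hbB : b ≤ B) :
    1 / B ≤ √(a / b) := by
  apply Real.le_sqrt_of_sq_le
  have hB0 : 0 < B := by linarith
  rw [div_pow, one_pow, div_le_div_iff₀ (by positivity) hb]
  nlinarith

theorem s_le_B {s k a b B : ℕ} (h : s ^ 2 * k = a * b) (hk : 0 < k) (ha : a ≤ B) (hb : b ≤ B) :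
    s ≤ B := by
  by_contra hcon
  push Not at hcon
  have h1 : s ^ 2 ≤ s ^ 2 * k := Nat.le_mul_of_pos_right _ hk
  have h2 : a * b ≤ B * B := Nat.mul_le_mul ha hb
  nlinarith

theorem mod_sq_le (k : ℕ) : ((k % 2 : ℕ) : ℝ) ^ 2 ≤ 1 := by
  have : k % 2 ≤ 1 := by omega
  have h3 : ((k % 2 : ℕ) : ℝ) ≤ 1 := by exact_mod_cast this
  have h4 : (0 : ℝ) ≤ ((k % 2 : ℕ) : ℝ) := Nat.cast_nonneg _
  nlinarith

theorem delta_aux {δ B : ℝ} (hδ0 : 0 < δ) (hδ : δ < 1 / 2) (hB : 1 ≤ B) :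
    δ / (2 * B) ≤ 1 / 2 := by
  rw [div_le_iff₀ (by linarith)]; nlinarith

set_option maxHeartbeats 1000000 in
/-- every element of `Λ` is a maximiser for arbitrarily large `α` -/
theorem inner {p q : ℕ} (hp : 0 < p) (hq : 0 < q) (hpq : Nat.Coprime p q)
    (hΛ : (p : ℝ) + q - 1 < 2 * √((p : ℝ) * q)) (r : ℝ) :
    ∃ α : ℝ, r < α ∧ ∀ β : ℝ, 0 < β → N β α ≤ N ((p : ℝ) / q) α := by
  obtain ⟨k, s, hsk, hk⟩ := Nat.sq_mul_squarefree (p * q)
  have hk0 : 0 < k := Nat.pos_of_ne_zero hk.ne_zero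
  have hs0 : 0 < s := by
    rcases Nat.eq_zero_or_pos s with h0 | h0
    · subst h0
      have : 0 < p * q := Nat.mul_pos hp hq
      simp at hsk; omega
    · exact h0
  have hkr : (0 : ℝ) < k := by exact_mod_cast hk0
  have hk1 : (1 : ℝ) ≤ k := by exact_mod_cast hk0
  have hsr : (0 : ℝ) < s := by exact_mod_cast hs0
  have hs1 : (1 : ℝ) ≤ s := by exact_mod_cast hs0
  have hpr : (0 : ℝ) < p := by exact_mod_cast hp
  have hqr : (0 : ℝ) < q := by exact_mod_cast hq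
  have hp1 : (1 : ℝ) ≤ p := by exact_mod_cast hp
  have hq1 : (1 : ℝ) ≤ q := by exact_mod_cast hq
  set κ : ℝ := √(k : ℝ) with hκ
  have hκ0 : 0 < κ := Real.sqrt_pos.2 hkr
  have hκ2 : κ ^ 2 = k := Real.sq_sqrt hkr.le
  have hsqrt : ∀ a b s' : ℕ, s' ^ 2 * k = a * b → √((a : ℝ) * b) = s' * κ := by
    intro a b s' h
    have : (a : ℝ) * b = (s' : ℝ) ^ 2 * k := by exact_mod_cast h.symm
    rw [this, Real.sqrt_mul (by positivity), Real.sqrt_sq (Nat.cast_nonneg _)]
  have hsq : √((p : ℝ) * q) = s * κ := hsqrt p q s hsk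
  set α0 : ℝ := (p + q - 1) / (2 * (s * κ)) with hα0
  have hα00 : 0 < α0 := by rw [hα0]; apply div_pos (by linarith) (by positivity)
  have hα01 : α0 < 1 := by
    rw [hα0, div_lt_one (by positivity), ← hsq]; exact hΛ
  have hα0eq : α0 * (2 * (s * κ)) = p + q - 1 := div_mul_cancel₀ _ (by positivity)
  set δ : ℝ := (1 - α0) / 2 with hδ
  have hδ0 : 0 < δ := by rw [hδ]; linarith
  have hδ1 : δ < 1 / 2 := by rw [hδ]; linarith
  obtain ⟨W, hW, K, hK, α₁, hα₁, hdich⟩ := upper_dichotomy hδ0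
  set B : ℕ := 8 * W + p + q with hB
  have hB1 : 1 ≤ B := by omega
  have hB1r : (1 : ℝ) ≤ B := by exact_mod_cast hB1
  have hB0r : (0 : ℝ) < B := by linarith
  set M : ℕ := (B * B).factorial with hM
  have hM0 : 0 < M := Nat.factorial_pos _
  have hMr : (1 : ℝ) ≤ M := by exact_mod_cast hM0
  have hMdvd : ∀ a b : ℕ, 0 < a → 0 < b → a ≤ B → b ≤ B → a * b ∣ M := by
    intro a b ha hb haB hbB
    exact Nat.dvd_factorial (Nat.mul_pos ha hb) (Nat.mul_le_mul haB hbB)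
  set δ₂ : ℝ := δ / (2 * B) with hδ₂
  have hδ₂0 : 0 < δ₂ := by positivity
  have hδ₂B : 2 * δ₂ * B = δ := by rw [hδ₂]; field_simp
  have hδ₂1 : δ₂ ≤ 1 / 2 := delta_aux hδ0 hδ1 hB1r
  set η : ℝ := δ₂ / (4 * B) with hη
  have hη0 : 0 < η := by positivity
  have hηB : 4 * B * η = δ₂ := by rw [hη]; field_simp
  -- eventual statements for all pairs
  have hev : ∀ᶠ α : ℝ in Filter.atTop, ∀ ab ∈ (Finset.Icc 1 B ×ˢ Finset.Icc 1 B),
      Nat.Coprime ab.1 ab.2 →
      ((∀ s' : ℕ, s' ^ 2 * k = ab.1 * ab.2 → ∀ T : ℕ,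
        2 * (α * √((ab.1 : ℝ) * ab.2)) ≤ 2 * T + 1 - (ab.1 + ab.2 - 2 * α0 * √((ab.1 : ℝ) * ab.2)) →
        ∀ β : ℝ, 9 / 64 ≤ β → |ab.2 * β - ab.1| * α ≤ K → N β α ≤ R ab.1 ab.2 T) ∧
      (∀ β : ℝ, 0 < β → |ab.2 * β - ab.1| * α ≤ K →
        2 * η ≤ 1 - Int.fract (2 * (α * √((ab.1 : ℝ) * ab.2))) →
        1 - Int.fract (2 * (α * √((ab.1 : ℝ) * ab.2))) ≤ δ₂ →
        (N β α : ℝ) ≤ α ^ 2 / 2 - α * α0 - 1)) := by
    rw [Filter.eventually_all_finset]
    rintro ⟨a, b⟩ hab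
    rw [Finset.mem_product, Finset.mem_Icc, Finset.mem_Icc] at hab
    obtain ⟨⟨ha1, haB⟩, ⟨hb1, hbB⟩⟩ := hab
    simp only at ha1 haB hb1 hbB ⊢
    by_cases hcop : Nat.Coprime a b
    swap
    · exact Filter.Eventually.of_forall fun _ h => absurd h hcop
    have har : (0 : ℝ) < a := by exact_mod_cast ha1
    have hbr : (0 : ℝ) < b := by exact_mod_cast hb1
    have hν : 0 < (a : ℝ) + b - 2 * α0 * √((a : ℝ) * b) := nu_pos har hbr hα01
    obtain ⟨αA, hA⟩ := local_bound' ha1 hb1 hcop hν hK.le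
    obtain ⟨C, αB, hαB, hBd⟩ := upper_near_phase (δ₁ := 2 * η) (δ₂ := δ₂) ha1 hb1 hcop hK.le
      (by positivity) hδ₂1
    filter_upwards [Filter.eventually_ge_atTop αA, Filter.eventually_ge_atTop αB,
      Filter.eventually_ge_atTop ((C + 1) / δ), Filter.eventually_gt_atTop 0]
      with α h1 h2 h3 h4 _
    refine ⟨fun s' _ T hT β hβ hdev => hA α h1 T hT β hβ hdev, ?_⟩
    intro β hβ hdev hp1 hp2
    have h5 := hBd α h2 β hβ hdev hp1 hp2
    have h6 : 2 * δ₂ / √((a : ℝ) / b) ≤ δ := by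
      have h7 : 1 / (B : ℝ) ≤ √((a : ℝ) / b) :=
        one_div_le_sqrt (by exact_mod_cast ha1) hbr hB1r (by exact_mod_cast hbB)
      rw [div_le_iff₀ (lt_of_lt_of_le (by positivity) h7)]
      have h8 : δ * (1 / B) ≤ δ * √((a : ℝ) / b) := mul_le_mul_of_nonneg_left h7 hδ0.le
      have h9 : δ * (1 / B) = 2 * δ₂ := by rw [hδ₂]; field_simp
      linarith
    have h7 : 2 * δ₂ / √((a : ℝ) / b) * α ≤ δ * α := mul_le_mul_of_nonneg_right h6 h4.le
    have h8 : C + 1 ≤ δ * α := by rw [div_le_iff₀ hδ0] at h3; linarith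
    have h9 : α * α0 = α - 2 * (δ * α) := by
      have : α0 = 1 - 2 * δ := by rw [hδ]; ring
      rw [this]; ring
    linarith
  obtain ⟨α₂, hα₂⟩ := Filter.eventually_atTop.1 hev
  -- Kronecker
  set K' : Finset ℕ := (Finset.range (B * B + 1)).filter (fun k' => Squarefree k' ∧ k' ≠ k) with hK'
  obtain ⟨T0, hT0⟩ := parity_aux hpq hsk.symm hp
  set αm : ℝ := max (max r α₁) (max α₂ (max (1 / δ) 3)) + 1 with hαm
  obtain ⟨N0, hN0⟩ := exists_nat_gt (αm * κ)
  have hω : ∀ h : {x // x ∈ K'} → ℤ, h ≠ 0 → ∀ j : ℤ,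
      ∑ i, (h i : ℝ) * (M * √((i : ℕ) : ℝ) / κ) ≠ j := by
    intro h hne j hj
    apply hne
    -- build the rational coefficients
    have hkK : k ∉ K' := by rw [hK', Finset.mem_filter]; tauto
    set c : ℕ → ℚ := fun m => if hm : m ∈ K' then (h ⟨m, hm⟩ : ℚ) * M else -(j : ℚ) with hc
    have hsum : ∑ m ∈ insert k K', (c m : ℝ) * √(m : ℝ) = 0 := by
      rw [Finset.sum_insert hkK]
      have h1 : (c k : ℝ) = -(j : ℝ) := by rw [hc]; simp [hkK]
      rw [h1, ← Finset.sum_coe_sort K']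
      have h2 : ∀ i : {x // x ∈ K'}, (c (i : ℕ) : ℝ) * √((i : ℕ) : ℝ)
          = κ * ((h i : ℝ) * (M * √((i : ℕ) : ℝ) / κ)) := by
        intro i
        have h3 : c (i : ℕ) = (h i : ℚ) * M := by
          rw [hc]; simp only [i.2, dif_pos]
        rw [h3]; push_cast; field_simp
      rw [Finset.sum_congr rfl (fun i _ => h2 i), ← Finset.mul_sum, hj]
      ring
    have hind := sqrt_indep (insert k K') (by
      intro m hm
      rw [Finset.mem_insert] at hm
      rcases hm with rfl | hm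
      · exact hk
      · rw [hK', Finset.mem_filter] at hm; exact hm.2.1) c hsum
    funext i
    have h4 := hind (i : ℕ) (Finset.mem_insert_of_mem i.2)
    have h3 : c (i : ℕ) = (h i : ℚ) * M := by
      rw [hc]; simp only [i.2, dif_pos]
    rw [h3] at h4
    have hMq : (M : ℚ) ≠ 0 := by exact_mod_cast hM0.ne'
    have h5 := (mul_eq_zero.1 h4).resolve_right hMq
    exact_mod_cast h5
  obtain ⟨t, htN, ht⟩ := kronecker (fun i : {x // x ∈ K'} => M * √((i : ℕ) : ℝ) / κ) hω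
    (fun i => T0 * √((i : ℕ) : ℝ) / (s * κ) + 3 / 2 * η) (half_pos hη0) N0
  set T : ℕ := T0 + s * M * t with hT
  set α : ℝ := T / (s * κ) with hα
  have hT1 : 2 * T + 1 = s * (k % 2 + 2 * M * t) + p + q := by
    have : s * (k % 2 + 2 * M * t) = s * (k % 2) + 2 * (s * M * t) := by ring
    rw [this]; omega
  have hαbig : αm < α := by
    have h1 : (s : ℝ) * M * t ≤ T := by
      rw [hT]; push_cast
      have : (0 : ℝ) ≤ T0 := Nat.cast_nonneg _
      linarith
    have h2 : αm * κ < t := lt_of_lt_of_le hN0 (by exact_mod_cast htN)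
    rw [hα, lt_div_iff₀ (by positivity)]
    have ht0 : (0 : ℝ) ≤ t := Nat.cast_nonneg _
    have h3 : αm * (s * κ) = s * (αm * κ) := by ring
    rw [h3]
    have h4 : (s : ℝ) * (αm * κ) < s * t := mul_lt_mul_of_pos_left h2 hsr
    have h5 : (s : ℝ) * t ≤ s * M * t := by
      have : (s : ℝ) * t * 1 ≤ s * t * M := mul_le_mul_of_nonneg_left hMr (by positivity)
      linarith
    linarith
  have hb1 : max r α₁ ≤ αm - 1 := by rw [hαm]; linarith [le_max_left (max r α₁) (max α₂ (max (1 / δ) 3))]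
  have hb2 : max α₂ (max (1 / δ) 3) ≤ αm - 1 := by
    rw [hαm]; linarith [le_max_right (max r α₁) (max α₂ (max (1 / δ) 3))]
  have hαr : r < α := by linarith [le_max_left r α₁]
  have hαα₁ : α₁ ≤ α := by linarith [le_max_right r α₁]
  have hαα₂ : α₂ ≤ α := by linarith [le_max_left α₂ (max (1 / δ) 3)]
  have hαδ : 1 / δ ≤ α := by linarith [le_max_right α₂ (max (1 / δ) 3), le_max_left (1 / δ) 3]
  have hα3 : 3 ≤ α := by linarith [le_max_right α₂ (max (1 / δ) 3), le_max_right (1 / δ) (3 : ℝ)]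
  have hα0pos : 0 < α := by linarith
  have hδα : 1 ≤ δ * α := by rw [div_le_iff₀ hδ0] at hαδ; linarith
  -- the value at `p / q`
  set n' : ℕ := k % 2 + 2 * M * t with hn'
  have hn'r : (n' : ℝ) = 2 * κ * (α - α0) := by
    have h1 : (2 : ℝ) * T + 1 = s * n' + p + q := by exact_mod_cast hT1
    have h2 : α * (s * κ) = T := div_mul_cancel₀ _ (by positivity)
    have h3 : (s : ℝ) * n' = s * (2 * κ * (α - α0)) := by
      linear_combination (-1 : ℝ) * h1 - 2 * h2 + hα0eq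
    exact mul_left_cancel₀ hsr.ne' h3
  have hNpq : N ((p : ℝ) / q) α = R p q T := by
    rw [N_rat hp hq hα0pos.le, hsq]
    congr 1
    rw [show α * (s * κ) = T from div_mul_cancel₀ _ (by positivity)]
    exact Nat.floor_natCast T
  have hRpq := R_special (M := M) (t := t) (T := T) hp hq hpq hsk.symm
    (hMdvd p q hp hq (by omega) (by omega)) hT1
  have hRlow : α ^ 2 / 2 - α * α0 - 1 / 8 ≤ (R p q T : ℝ) := by
    have h1 : 8 * (k : ℝ) * (R p q T : ℝ) = (n' : ℝ) ^ 2 - ((k % 2 : ℕ) : ℝ) ^ 2 := by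
      exact_mod_cast hRpq
    rw [hn'r] at h1
    have h2 : ((k % 2 : ℕ) : ℝ) ^ 2 ≤ 1 := mod_sq_le k
    have h5 : (2 * κ * (α - α0)) ^ 2 = 4 * k * (α - α0) ^ 2 := by rw [← hκ2]; ring
    rw [h5] at h1
    have h6 : (R p q T : ℝ) = (α - α0) ^ 2 / 2 - ((k % 2 : ℕ) : ℝ) ^ 2 / (8 * k) := by
      field_simp
      linarith
    rw [h6]
    have h7 : ((k % 2 : ℕ) : ℝ) ^ 2 / (8 * k) ≤ 1 / 8 := by
      rw [div_le_div_iff₀ (by positivity) (by norm_num)]
      linarith
    have h8 : (α - α0) ^ 2 / 2 = α ^ 2 / 2 - α * α0 + α0 ^ 2 / 2 := by ring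
    have h9 : 0 ≤ α0 ^ 2 / 2 := by positivity
    linarith
  refine ⟨α, hαr, ?_⟩
  intro β hβ
  rw [hNpq]
  have hα0δ : α0 = 1 - 2 * δ := by rw [hδ]; ring
  have hαα0 : α * α0 = α - 2 * (δ * α) := by rw [hα0δ]; ring
  rcases lt_or_ge β (9 / 64) with hβ1 | hβ1
  · have h1 := N_lt_of_small hβ hβ1 (by linarith : (2 : ℝ) < α)
    have h2 : (N β α : ℝ) < (R p q T : ℝ) := by linarith
    exact_mod_cast h2.le
  rcases lt_or_ge (64 / 9) β with hβ2 | hβ2
  · have h1 := N_lt_of_large hβ2 (by linarith : (2 : ℝ) < α)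
    have h2 : (N β α : ℝ) < (R p q T : ℝ) := by linarith
    exact_mod_cast h2.le
  rcases hdich α hαα₁ β hβ1 hβ2 with h | ⟨a, b, ha, hb, hbW, haW, hab, hdev⟩
  · have hs' : 0 < √β := Real.sqrt_pos.2 hβ
    have h6 : 2 ≤ √β + 1 / √β := by
      have : √β + 1 / √β - 2 = (√β - 1) ^ 2 / √β := by field_simp; ring
      have h7 : 0 ≤ (√β - 1) ^ 2 / √β := by positivity
      linarith
    have h7 : α / 2 * 2 ≤ α / 2 * (√β + 1 / √β) := mul_le_mul_of_nonneg_left h6 (by positivity)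
    have h2 : (N β α : ℝ) ≤ (R p q T : ℝ) := by linarith
    exact_mod_cast h2
  · have haB : a ≤ B := by omega
    have hbB : b ≤ B := by omega
    obtain ⟨hE1, hE2⟩ := hα₂ α hαα₂ (a, b) (by
      rw [Finset.mem_product, Finset.mem_Icc, Finset.mem_Icc]; exact ⟨⟨ha, haB⟩, ⟨hb, hbB⟩⟩) hab
    simp only at hE1 hE2
    obtain ⟨k', s', hsk', hk'⟩ := Nat.sq_mul_squarefree (a * b)
    have hab0 : 0 < a * b := Nat.mul_pos ha hb
    have hs'0 : 0 < s' := by
      rcases Nat.eq_zero_or_pos s' with h0 | h0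
      · subst h0; simp at hsk'; omega
      · exact h0
    by_cases hkk : k' = k
    · subst hkk
      obtain ⟨T0', hT0'⟩ := parity_aux hab hsk'.symm ha
      have hT1' : 2 * (T0' + s' * M * t) + 1 = s' * (k' % 2 + 2 * M * t) + a + b := by
        have : s' * (k' % 2 + 2 * M * t) = s' * (k' % 2) + 2 * (s' * M * t) := by ring
        rw [this]; omega
      have hRab := R_special (M := M) (t := t) (T := T0' + s' * M * t) ha hb hab hsk'.symm
        (hMdvd a b ha hb haB hbB) hT1'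
      have hEq : R a b (T0' + s' * M * t) = R p q T := by
        have h1 : 8 * (k' : ℤ) * (R a b (T0' + s' * M * t) : ℤ) = 8 * (k' : ℤ) * (R p q T : ℤ) := by
          rw [hRab, hRpq]
        have h2 : (8 * (k' : ℤ)) ≠ 0 := by positivity
        exact_mod_cast mul_left_cancel₀ h2 h1
      rw [← hEq]
      apply hE1 s' hsk' _ _ β hβ1 hdev
      rw [hsqrt a b s' hsk']
      have h1 : (2 : ℝ) * ((T0' + s' * M * t : ℕ) : ℝ) + 1 = s' * n' + a + b := by
        exact_mod_cast hT1'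
      rw [h1, hn'r]
      apply le_of_eq; ring
    · -- another class: use the phase
      have hk'0 : 0 < k' := Nat.pos_of_ne_zero hk'.ne_zero
      have hk'mem : k' ∈ K' := by
        rw [hK', Finset.mem_filter, Finset.mem_range]
        refine ⟨?_, hk', hkk⟩
        have h1 : k' ≤ s' ^ 2 * k' := Nat.le_mul_of_pos_left _ (by positivity)
        have h2 : a * b ≤ B * B := Nat.mul_le_mul haB hbB
        omega
      have hs'B : s' ≤ B := s_le_B hsk' hk'0 haB hbB
      obtain ⟨m, hm⟩ := ht ⟨k', hk'mem⟩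
      simp only at hm
      have hsqab : √((a : ℝ) * b) = s' * √(k' : ℝ) := by
        have : (a : ℝ) * b = (s' : ℝ) ^ 2 * k' := by exact_mod_cast hsk'.symm
        rw [this, Real.sqrt_mul (by positivity), Real.sqrt_sq (Nat.cast_nonneg _)]
      set ζ : ℝ := α * √(k' : ℝ) with hζ
      have hζ2 : t * (M * √(k' : ℝ) / κ) + (T0 * √(k' : ℝ) / (s * κ) + 3 / 2 * η) = ζ + 3 / 2 * η := by
        rw [hζ, hα, hT]; push_cast; field_simp; ring
      rw [hζ2] at hm
      have hm2 := abs_lt.1 hm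
      set τ : ℝ := m - ζ with hτ
      have hτ1 : η < τ := by rw [hτ]; linarith
      have hτ2 : τ < 2 * η := by rw [hτ]; linarith
      have hs'r : (1 : ℝ) ≤ s' := by exact_mod_cast hs'0
      have hτ0 : 0 < τ := lt_trans hη0 hτ1
      have hlow : 2 * η ≤ 2 * s' * τ := by
        have h1 : 1 * τ ≤ s' * τ := mul_le_mul_of_nonneg_right hs'r hτ0.le
        linarith
      have hs'Br : (s' : ℝ) ≤ B := by exact_mod_cast hs'B
      have hup : 2 * s' * τ ≤ δ₂ := by
        have h1 : 2 * (s' : ℝ) * τ ≤ 2 * B * (2 * η) := by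
          apply mul_le_mul (by linarith) hτ2.le (by linarith) (by positivity)
        linarith
      have hfr : Int.fract (2 * (α * √((a : ℝ) * b))) = 1 - 2 * s' * τ := by
        rw [Int.fract_eq_iff]
        have h0 : 0 < 2 * (s' : ℝ) * τ := by linarith
        refine ⟨by linarith, by linarith, 2 * s' * m - 1, ?_⟩
        rw [hsqab]; push_cast; rw [hτ, hζ]; ring
      have h3 := hE2 β hβ hdev (by rw [hfr]; linarith) (by rw [hfr]; linarith)
      have h4 : (N β α : ℝ) ≤ (R p q T : ℝ) := by linarith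
      exact_mod_cast h4

end Pool.Agent.Lib.MP_a2cf47_nt
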