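import Pool.Agent.Lib.MP_a2cf47_nt.Rational

set_option autoImplicit false

open Real Finset

namespace Pool.Agent.Lib.MP_a2cf47_nt

theorem N_symm {β : ℝ} (hβ : 0 < β) (α : ℝ) : N (1 / β) α = N β α := by
  unfold N
  have hs : 0 < √β := Real.sqrt_pos.2 hβ
  have hss : √β * √β = β := Real.mul_self_sqrt hβ.le
  have h : pts (1 / β) α = Prod.swap '' pts β α := by
    ext ⟨k, m⟩
    simp only [pts, Set.mem_image, Set.mem_ofPred_eq, Prod.exists, Prod.swap_prod_mk, Prod.mk.injEq]
    have e : √(1 / β) = 1 / √β := by rw [Real.sqrt_div zero_le_one, Real.sqrt_one]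
    have key : (m : ℝ) ≤ α * √(1 / β) - k * (1 / β) ↔ (k : ℝ) ≤ α * √β - m * β := by
      rw [e, ← mul_le_mul_iff_left₀ hβ]
      have e2 : (α * (1 / √β) - k * (1 / β)) * β = α * √β - k := by
        have : (1 / √β) * β = √β := by
          nth_rewrite 2 [← hss]; field_simp
        calc (α * (1 / √β) - k * (1 / β)) * β = α * ((1 / √β) * β) - k * (1 / β * β) := by ring
          _ = α * √β - k := by rw [this, one_div_mul_cancel hβ.ne']; ring
      rw [e2]
      constructor <;> intro h <;> linarith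
    constructor
    · rintro ⟨h1, h2, h3⟩
      exact ⟨m, k, ⟨h2, h1, key.1 h3⟩, rfl, rfl⟩
    · rintro ⟨m', k', ⟨h2, h1, h3⟩, rfl, rfl⟩
      exact ⟨h1, h2, key.2 h3⟩
  rw [h, Set.ncard_image_of_injective _ Prod.swap_injective]

/-- an integer in a prescribed residue class in a half-open interval of length `b` -/
theorem exists_residue {a b : ℕ} (hb : 0 < b) (hab : Nat.Coprime a b) (c : ℤ) (y : ℝ) :
    ∃ K M : ℤ, (a : ℤ) * K + b * M = c ∧ y - b < K ∧ (K : ℝ) ≤ y := by
  have hb' : (0 : ℝ) < b := by exact_mod_cast hb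
  -- Bezout
  have hbez : (a : ℤ) * Nat.gcdA a b + b * Nat.gcdB a b = 1 := by
    have := Nat.gcd_eq_gcd_ab a b
    rw [hab] at this
    push_cast at this
    linarith
  set r : ℤ := c * Nat.gcdA a b with hr
  set q : ℤ := ⌊(y - r) / b⌋ with hq
  refine ⟨r + b * q, c * Nat.gcdB a b - a * q, ?_, ?_, ?_⟩
  · rw [hr]; linear_combination c * hbez
  · have h1 : (y - r) / b < q + 1 := Int.lt_floor_add_one _
    rw [div_lt_iff₀ hb'] at h1
    push_cast
    nlinarith
  · have h1 : (q : ℝ) ≤ (y - r) / b := Int.floor_le _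
    rw [le_div_iff₀ hb'] at h1
    push_cast
    nlinarith

/-- Local lemma: small rotations of a rational line in good position do not help. -/
theorem local_bound {a b : ℕ} (ha : 0 < a) (hb : 0 < b) (hab : Nat.Coprime a b) {ν C : ℝ}
    (hν : 0 < ν) (hC : 0 ≤ C) :
    ∃ α₀ : ℝ, 0 < α₀ ∧ ∀ α : ℝ, α₀ ≤ α → ∀ T : ℕ, 2 * (α * √((a : ℝ) * b)) ≤ 2 * T + 1 - ν →
      ∀ β : ℝ, 0 ≤ b * β - a → (b * β - a) * α ≤ C → N β α ≤ R a b T := by
  have hb' : (0 : ℝ) < b := by exact_mod_cast hb
  have ha' : (0 : ℝ) < a := by exact_mod_cast ha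
  set u : ℝ := √((b : ℝ) / a) with hu
  have hu0 : 0 < u := Real.sqrt_pos.2 (by positivity)
  have hau : (a : ℝ) * u = √((a : ℝ) * b) := by
    rw [hu, show (a : ℝ) * b = a ^ 2 * (b / a) by field_simp, Real.sqrt_mul (by positivity),
      Real.sqrt_sq ha'.le]
  set c : ℝ := (C * u / 2 + b) / a with hc
  have hc0 : 0 ≤ c := by positivity
  refine ⟨max 1 (max (2 * (c + b) / u) (C * (c + b) / ν + 1)), by positivity, ?_⟩
  intro α hα T hT β hη0 hηC
  have hα1 : 1 ≤ α := le_trans (le_max_left _ _) hα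
  have hα2 : 2 * (c + b) / u ≤ α := le_trans (le_trans (le_max_left _ _) (le_max_right _ _)) hα
  have hα3 : C * (c + b) / ν + 1 ≤ α :=
    le_trans (le_trans (le_max_right _ _) (le_max_right _ _)) hα
  have hα0 : 0 < α := by linarith
  set η : ℝ := b * β - a with hη
  have hβ : 0 < β := by
    have : 0 < b * β := by linarith
    exact (pos_iff_pos_of_mul_pos this).1 hb'
  set X : ℝ := α * u with hX
  have hX0 : 0 < X := by positivity
  have haX : a * X = α * √((a : ℝ) * b) := by rw [hX, ← hau]; ring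
  rw [← haX] at hT
  -- the perturbed intercept
  have hint : b * (α * √β) ≤ a * X + η * X / 2 := by
    have h1 : b * √β ≤ a * u + η * u / 2 := by
      have h2 : b * √β = √(b * b * β) := by
        rw [Real.sqrt_mul (by positivity), Real.sqrt_mul_self hb'.le]
      rw [h2]
      apply Real.sqrt_le_iff.2
      refine ⟨by positivity, ?_⟩
      have h3 : u ^ 2 = b / a := Real.sq_sqrt (by positivity)
      have h4 : (a * u + η * u / 2) ^ 2 = (a + η / 2) ^ 2 * u ^ 2 := by ring
      rw [h4, h3]
      have h5 : (b : ℝ) * b * β = b * (a + η) := by rw [hη]; ring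
      rw [h5]
      have h6 : (a + η / 2) ^ 2 * ((b : ℝ) / a) = b * (a + η) + b * η ^ 2 / (4 * a) := by
        field_simp; ring
      rw [h6]
      have : 0 ≤ b * η ^ 2 / (4 * a) := by positivity
      linarith
    calc b * (α * √β) = α * (b * √β) := by ring
      _ ≤ α * (a * u + η * u / 2) := mul_le_mul_of_nonneg_left h1 hα0.le
      _ = a * X + η * X / 2 := by rw [hX]; ring
  obtain ⟨K, M, hKM, hK1, hK2⟩ := exists_residue hb hab (2 * T + 1) (X - c)
  have hKMr : (a : ℝ) * K + b * M = 2 * T + 1 := by exact_mod_cast hKM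
  have hηX : η * X ≤ C * u := by
    rw [hX]
    calc η * (α * u) = (η * α) * u := by ring
      _ ≤ C * u := mul_le_mul_of_nonneg_right hηC hu0.le
  have hηcb : η * (c + b) < ν := by
    have h1 : η ≤ C / α := by rw [le_div_iff₀ hα0]; exact hηC
    have h2 : C * (c + b) / ν < α := by linarith
    rw [div_lt_iff₀ hν] at h2
    have h3 : η * (c + b) ≤ C / α * (c + b) := mul_le_mul_of_nonneg_right h1 (by positivity)
    have h4 : C / α * (c + b) < ν := by
      rw [div_mul_eq_mul_div, div_lt_iff₀ hα0]; linarith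
    linarith
  have hXcb : X / 2 ≤ K := by
    have h1 : 2 * (c + b) ≤ α * u := by rwa [div_le_iff₀ hu0] at hα2
    rw [hX] at hK1 ⊢
    linarith
  -- gained points
  have hgain : ∀ k m : ℕ, (k, m) ∈ pts β α → (k, m) ∉ Rset a b T →
      ((k : ℤ) < K ∧ (m : ℤ) < M ∧ a * (K - k) + b * (M - m) ≤ T ∧
        α * √β - (K - k) * β < M - m) := by
    intro k m hp hR
    simp only [pts, Set.mem_ofPred_eq] at hp
    obtain ⟨hk, hm, hkm⟩ := hp
    have hR' : T < a * k + b * m := by
      by_contra hcon
      exact hR ⟨hk, hm, by simpa using hcon⟩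
    have hR2 : (T : ℝ) + 1 ≤ a * k + b * m := by exact_mod_cast hR'
    have hbm : (b : ℝ) * m ≤ b * (α * √β) - k * (a + η) := by
      have h1 := mul_le_mul_of_nonneg_left hkm hb'.le
      have h2 : (b : ℝ) * (α * √β - k * β) = b * (α * √β) - k * (a + η) := by rw [hη]; ring
      linarith
    have hk0 : (0 : ℝ) ≤ k := Nat.cast_nonneg _
    have hk1 : (k : ℝ) < X / 2 := by
      have h1 : 0 < η * (X / 2 - k) := by
        have h2 : η * (X / 2 - k) = η * X / 2 - k * η := by ring
        have h3 : (k : ℝ) * (a + η) = a * k + k * η := by ring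
        linarith
      by_contra hcon
      push Not at hcon
      have h4 : η * (X / 2 - k) ≤ 0 := mul_nonpos_of_nonneg_of_nonpos hη0 (by linarith)
      linarith
    have hkK : (k : ℝ) < K := by linarith
    have hmM : (m : ℝ) < M := by
      have h1 : (b : ℝ) * M = 2 * T + 1 - a * K := by linarith
      have h2 : a * K ≤ a * X - (C * u / 2 + b) := by
        have h3 : a * (K : ℝ) ≤ a * (X - c) := mul_le_mul_of_nonneg_left hK2 ha'.le
        have h4 : a * (X - c) = a * X - (C * u / 2 + b) := by rw [hc]; field_simp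
        linarith
      have h5 : (b : ℝ) * m < b * M := by
        have h6 : 0 ≤ (k : ℝ) * (a + η) := by positivity
        linarith
      exact lt_of_mul_lt_mul_left h5 hb'.le
    refine ⟨by exact_mod_cast hkK, by exact_mod_cast hmM, ?_, ?_⟩
    · have : (a : ℤ) * (K - k) + b * (M - m) = 2 * T + 1 - (a * k + b * m) := by
        linear_combination hKM
      rw [this]
      have : (T : ℤ) + 1 ≤ a * k + b * m := by exact_mod_cast hR'
      linarith
    · have h1 : b * (α * √β - (K - k) * β) < b * (M - m) := by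
        have h2 : b * (α * √β - (K - k) * β) = b * (α * √β) - (K - k) * (a + η) := by
          rw [hη]; ring
        rw [h2]
        have h3 : η * (X - K) ≤ η * (c + b) := mul_le_mul_of_nonneg_left (by linarith) hη0
        have h4 : ((K : ℝ) - k) * (a + η) = a * K + η * K - k * (a + η) := by ring
        have h5 : η * (X - K) = η * X - η * K := by ring
        have h6 : (b : ℝ) * (M - m) = b * M - b * m := by ring
        rw [h4, h6]
        linarith
      exact lt_of_mul_lt_mul_left h1 hb'.le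
  have hle : (pts β α \ Rset a b T).ncard ≤ (Rset a b T \ pts β α).ncard := by
    refine Set.ncard_le_ncard_of_injOn (fun x : ℕ × ℕ => ((K - x.1).toNat, (M - x.2).toNat))
      ?_ ?_ ((Rset_finite ha hb).subset Set.sdiff_subset)
    · rintro ⟨k, m⟩ ⟨hp, hR⟩
      obtain ⟨h1, h2, h3, h4⟩ := hgain k m hp hR
      have e1 : (((K - k).toNat : ℕ) : ℤ) = K - k := Int.toNat_of_nonneg (by linarith)
      have e2 : (((M - m).toNat : ℕ) : ℤ) = M - m := Int.toNat_of_nonneg (by linarith)
      have e1r : (((K - k).toNat : ℕ) : ℝ) = K - k := by exact_mod_cast e1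
      have e2r : (((M - m).toNat : ℕ) : ℝ) = M - m := by exact_mod_cast e2
      refine ⟨⟨?_, ?_, ?_⟩, ?_⟩
      · simp only; omega
      · simp only; omega
      · simp only
        have : ((a * (K - k).toNat + b * (M - m).toNat : ℕ) : ℤ) ≤ T := by
          push_cast [e1, e2]
          exact h3
        exact_mod_cast this
      · intro hmem
        simp only [pts, Set.mem_ofPred_eq] at hmem
        have h5 := hmem.2.2
        rw [e1r, e2r] at h5
        linarith
    · rintro ⟨k, m⟩ ⟨hp, hR⟩ ⟨k', m'⟩ ⟨hp', hR'⟩ heq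
      obtain ⟨h1, h2, _, _⟩ := hgain k m hp hR
      obtain ⟨h1', h2', _, _⟩ := hgain k' m' hp' hR'
      simp only [Prod.mk.injEq] at heq ⊢
      omega
  have e1 := Set.ncard_inter_add_ncard_sdiff_eq_ncard (pts β α) (Rset a b T) (pts_finite hβ)
  have e2 := Set.ncard_inter_add_ncard_sdiff_eq_ncard (Rset a b T) (pts β α) (Rset_finite ha hb)
  rw [Set.inter_comm] at e2
  unfold N R
  omega

end Pool.Agent.Lib.MP_a2cf47_nt
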