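import Pool.Agent.Lib.MP_a2cf47_nt.Rational

set_option autoImplicit false

open Real Finset

namespace Pool.Agent.Lib.MP_a2cf47_nt

theorem sum_mod (n : ℕ) (hn : 0 < n) (v : ℕ) :
    2 * ∑ i ∈ range v, ((i % n : ℕ) : ℤ) + ((v % n : ℕ) : ℤ) * (n - ((v % n : ℕ) : ℤ))
      = v * (n - 1) := by
  induction v with
  | zero => simp
  | succ v ih =>
    rw [Finset.sum_range_succ]
    have h1 : v % n < n := Nat.mod_lt _ hn
    by_cases h2 : v % n + 1 < n
    · have h3 : (v + 1) % n = v % n + 1 := by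
        rw [Nat.add_mod]
        have : 1 % n = 1 := Nat.mod_eq_of_lt (by omega)
        rw [this]; exact Nat.mod_eq_of_lt h2
      rw [h3]
      push_cast at ih ⊢
      linear_combination ih
    · have h4 : v % n = n - 1 := by omega
      have h3 : (v + 1) % n = 0 := by
        rw [Nat.add_mod, h4]
        rcases Nat.lt_or_ge 1 n with h5 | h5
        · rw [Nat.mod_eq_of_lt h5, Nat.sub_add_cancel hn]; exact Nat.mod_self n
        · have : n = 1 := by omega
          subst this; simp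
      have h4' : ((v % n : ℕ) : ℤ) = n - 1 := by rw [h4]; push_cast [Nat.cast_sub hn]; ring
      rw [h4'] at ih
      rw [h3, h4', Nat.cast_zero, zero_mul, add_zero, Nat.cast_add, Nat.cast_one]
      linear_combination ih

theorem sum_mod_window (n : ℕ) (hn : 0 < n) (T J : ℕ) (hJ : J ≤ T) :
    8 * ∑ k ∈ range J, (((T - (k + 1)) % n : ℕ) : ℤ) ≤ 4 * (J * (n - 1)) + n ^ 2 := by
  have h1 : ∑ k ∈ range J, (((T - (k + 1)) % n : ℕ) : ℤ)
      = ∑ i ∈ range J, (((T - J + i) % n : ℕ) : ℤ) := by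
    rw [← Finset.sum_range_reflect]
    apply Finset.sum_congr rfl
    intro i hi
    rw [Finset.mem_range] at hi
    congr 3
    omega
  have h2 : ∑ i ∈ range T, ((i % n : ℕ) : ℤ)
      = ∑ i ∈ range (T - J), ((i % n : ℕ) : ℤ) + ∑ i ∈ range J, (((T - J + i) % n : ℕ) : ℤ) := by
    conv_lhs => rw [← Nat.sub_add_cancel hJ]
    rw [Finset.sum_range_add]
  have h3 := sum_mod n hn T
  have h4 := sum_mod n hn (T - J)
  rw [h1]
  have h5 : (((T - J : ℕ) : ℤ)) = T - J := by rw [Nat.cast_sub hJ]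
  rw [h5] at h4
  set r := (((T - J) % n : ℕ) : ℤ)
  set r' := ((T % n : ℕ) : ℤ) with hr'
  have h6 : 0 ≤ r' * (n - r') := by
    have : T % n < n := Nat.mod_lt _ hn
    have h7 : r' ≤ n := by rw [hr']; exact_mod_cast this.le
    exact mul_nonneg (by rw [hr']; positivity) (by linarith)
  have h8 : 4 * (r * (n - r)) ≤ (n : ℤ) ^ 2 := by nlinarith [sq_nonneg ((n : ℤ) - 2 * r)]
  linarith

theorem R_lower_int (n : ℕ) (hn : 0 < n) (T J : ℕ) (hJ : J ≤ T) :
    8 * (J * (T - n : ℤ)) - 4 * ((n + 1) * J ^ 2) - n ^ 2 ≤ 8 * (n * (R (n + 1) n T : ℤ)) := by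
  rw [R_eq_sum hn T (by nlinarith)]
  have h1 : ∑ k ∈ range J, (T - (n + 1) * (k + 1)) / n ≤ ∑ k ∈ range T, (T - (n + 1) * (k + 1)) / n :=
    Finset.sum_le_sum_of_subset (by simpa using hJ)
  have h2 : ∑ k ∈ range J, ((T : ℤ) - (k + 1) - n * (k + 1) - (((T - (k + 1)) % n : ℕ) : ℤ))
      ≤ n * ∑ k ∈ range J, (((T - (n + 1) * (k + 1)) / n : ℕ) : ℤ) := by
    rw [Finset.mul_sum]
    apply Finset.sum_le_sum
    intro k hk
    rw [Finset.mem_range] at hk
    have hkT : k + 1 ≤ T := by omega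
    rcases le_or_gt ((n + 1) * (k + 1)) T with h | h
    · have h3 : T - (n + 1) * (k + 1) = (T - (k + 1)) - n * (k + 1) := by
        have : (n + 1) * (k + 1) = n * (k + 1) + (k + 1) := by ring
        omega
      have h4 : (T - (n + 1) * (k + 1)) % n = (T - (k + 1)) % n := by
        rw [h3]
        have h5 : n * (k + 1) ≤ T - (k + 1) := by
          have : (n + 1) * (k + 1) = n * (k + 1) + (k + 1) := by ring
          omega
        have h6 : T - (k + 1) = (T - (k + 1) - n * (k + 1)) + n * (k + 1) := by omega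
        conv_rhs => rw [h6]
        rw [Nat.add_mul_mod_self_left]
      have h5 := Nat.div_add_mod (T - (n + 1) * (k + 1)) n
      have h6 : ((n * ((T - (n + 1) * (k + 1)) / n) + (T - (n + 1) * (k + 1)) % n : ℕ) : ℤ)
          = ((T - (n + 1) * (k + 1) : ℕ) : ℤ) := by rw [h5]
      rw [h4, Nat.cast_sub h] at h6
      rw [Nat.cast_add, Nat.cast_mul] at h6
      have h7 : (((n + 1) * (k + 1) : ℕ) : ℤ) = (n + 1) * (k + 1) := by push_cast; ring
      rw [h7] at h6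
      linarith
    · have h3 : (T - (n + 1) * (k + 1)) = 0 := by omega
      rw [h3, Nat.zero_div]
      have h5 := Nat.div_add_mod (T - (k + 1)) n
      have h6 : ((n * ((T - (k + 1)) / n) + (T - (k + 1)) % n : ℕ) : ℤ)
          = ((T - (k + 1) : ℕ) : ℤ) := by rw [h5]
      rw [Nat.cast_sub hkT, Nat.cast_add, Nat.cast_mul] at h6
      have h7 : (T - (k + 1)) / n < k + 1 := by
        rw [Nat.div_lt_iff_lt_mul hn]
        have : (n + 1) * (k + 1) = (k + 1) * n + (k + 1) := by ring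
        omega
      have h8 : (((T - (k + 1)) / n : ℕ) : ℤ) ≤ k := by exact_mod_cast Nat.lt_succ_iff.1 h7
      have h9 : (n : ℤ) * (((T - (k + 1)) / n : ℕ) : ℤ) ≤ n * k :=
        mul_le_mul_of_nonneg_left h8 (Nat.cast_nonneg _)
      have h10 : (0 : ℤ) ≤ n := Nat.cast_nonneg _
      push_cast at h6 h9 ⊢
      linarith
  rw [Finset.sum_sub_distrib] at h2
  have h3 : 2 * ∑ k ∈ range J, ((T : ℤ) - (k + 1) - n * (k + 1)) = 2 * (J * T) - (n + 1) * (J * (J + 1)) := by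
    clear h1 h2 hJ
    induction J with
    | zero => simp
    | succ J ih =>
      rw [Finset.sum_range_succ, mul_add, ih]
      push_cast; ring
  have h4 := sum_mod_window n hn T J hJ
  have h5 : ((∑ k ∈ range J, (T - (n + 1) * (k + 1)) / n : ℕ) : ℤ)
      ≤ ((∑ k ∈ range T, (T - (n + 1) * (k + 1)) / n : ℕ) : ℤ) := by exact_mod_cast h1
  have h6 := mul_le_mul_of_nonneg_left h5 (Nat.cast_nonneg n : (0 : ℤ) ≤ n)
  have h7 : ((∑ k ∈ range J, (T - (n + 1) * (k + 1)) / n : ℕ) : ℤ)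
      = ∑ k ∈ range J, (((T - (n + 1) * (k + 1)) / n : ℕ) : ℤ) := Nat.cast_sum _ _
  rw [h7] at h6
  nlinarith

theorem R_lower (n : ℕ) (hn : 0 < n) (T : ℕ) (hT : n ≤ T) :
    ((T : ℝ) - n) ^ 2 / (2 * (n * (n + 1))) - n / 8 - 1 / 4 ≤ R (n + 1) n T := by
  have hnr : (0 : ℝ) < n := by exact_mod_cast hn
  have hn1 : (1 : ℝ) ≤ n := by exact_mod_cast hn
  have hTr : (n : ℝ) ≤ T := by exact_mod_cast hT
  set y : ℝ := (T - n) / (n + 1) with hy
  have hy0 : 0 ≤ y := div_nonneg (by linarith) (by positivity)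
  set J : ℕ := ⌊y + 1 / 2⌋₊ with hJ
  have hJ1 : (J : ℝ) ≤ y + 1 / 2 := Nat.floor_le (by linarith)
  have hJ2 : y + 1 / 2 < J + 1 := Nat.lt_floor_add_one _
  have hyT : y ≤ (T - n) / 2 := by
    rw [hy]
    apply div_le_div_of_nonneg_left (by linarith) (by norm_num) (by linarith)
  have hJT : J ≤ T := by
    have : (J : ℝ) < T + 1 := by linarith
    exact_mod_cast Nat.lt_succ_iff.1 (by exact_mod_cast this)
  have h1 := R_lower_int n hn T J hJT
  have h2 : 8 * ((J : ℝ) * (T - n)) - 4 * ((n + 1) * (J : ℝ) ^ 2) - (n : ℝ) ^ 2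
      ≤ 8 * (n * (R (n + 1) n T : ℝ)) := by exact_mod_cast h1
  have hyn : y * (n + 1) = T - n := div_mul_cancel₀ _ (by positivity)
  have h3 : ((J : ℝ) - y) ^ 2 ≤ 1 / 4 := by
    have h4 : |(J : ℝ) - y| ≤ 1 / 2 := by rw [abs_le]; constructor <;> linarith
    have h5 := sq_abs ((J : ℝ) - y)
    have h6 : |(J : ℝ) - y| ^ 2 ≤ (1 / 2) ^ 2 := pow_le_pow_left₀ (abs_nonneg _) h4 2
    linarith
  have h4 : 8 * ((J : ℝ) * (T - n)) - 4 * ((n + 1) * (J : ℝ) ^ 2)
      = 4 * (n + 1) * y ^ 2 - 4 * (n + 1) * ((J : ℝ) - y) ^ 2 := by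
    rw [← hyn]; ring
  have h5 : 4 * ((n : ℝ) + 1) * ((J : ℝ) - y) ^ 2 ≤ 4 * (n + 1) * (1 / 4) :=
    mul_le_mul_of_nonneg_left h3 (by positivity)
  have h6 : ((T : ℝ) - n) ^ 2 / (2 * (n * (n + 1))) = (n + 1) * y ^ 2 / (2 * n) := by
    rw [← hyn]; field_simp
  rw [h6]
  have h7 : (n + 1) * y ^ 2 / (2 * n) - n / 8 - 1 / 4
      = (4 * (n + 1) * y ^ 2 - n ^ 2 - 2 * n) / (8 * n) := by field_simp; ring
  rw [h7, div_le_iff₀ (by positivity)]
  nlinarith

end Pool.Agent.Lib.MP_a2cf47_nt
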