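import Pool.Agent.Lib.MP_a2cf47_nt.Lower

set_option autoImplicit false

open Real Finset

namespace Pool.Agent.Lib.MP_a2cf47_nt

/-- `g m = √(m (m+1))` -/
noncomputable def gg (m : ℕ) : ℝ := √(((m + 1 : ℕ) : ℝ) * m)

theorem gg_upper {m : ℕ} {w : ℝ} (hw : w = m + 1 / 2) (hm : 1 ≤ m) :
    gg m ≤ w - 1 / (8 * w) := by
  have hm' : (1 : ℝ) ≤ m := by exact_mod_cast hm
  have hw1 : 1 ≤ w := by linarith
  unfold gg
  apply Real.sqrt_le_iff.2
  have h2 : 1 / (8 * w) ≤ 1 / 8 := by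
    apply one_div_le_one_div_of_le (by norm_num); linarith
  refine ⟨by linarith, ?_⟩
  have e : (w - 1 / (8 * w)) ^ 2 = w ^ 2 - 1 / 4 + 1 / (64 * w ^ 2) := by field_simp; ring
  rw [e]
  have : 0 < 1 / (64 * w ^ 2) := by positivity
  push_cast
  have hmw : (m : ℝ) = w - 1 / 2 := by linarith
  rw [hmw]
  nlinarith

theorem gg_lower {m : ℕ} {w : ℝ} (hw : w = m + 1 / 2) (hm : 1 ≤ m) :
    w - 1 / (8 * w) - 1 / (64 * w ^ 3) ≤ gg m := by
  have hm' : (1 : ℝ) ≤ m := by exact_mod_cast hm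
  have hw1 : 1 ≤ w := by linarith
  unfold gg
  apply Real.le_sqrt_of_sq_le
  have hmw : (m : ℝ) = w - 1 / 2 := by linarith
  push_cast
  rw [hmw]
  have e : (w - 1 / (8 * w) - 1 / (64 * w ^ 3)) ^ 2
      = w ^ 2 - 1 / 4 - 1 / (64 * w ^ 2) + 1 / (256 * w ^ 4) + 1 / (4096 * w ^ 6) := by
    field_simp; ring
  rw [e]
  have h1 : 1 / (256 * w ^ 4) ≤ 1 / (256 * w ^ 2) := by
    apply one_div_le_one_div_of_le (by positivity)
    have : w ^ 2 ≤ w ^ 4 := pow_le_pow_right₀ hw1 (by norm_num)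
    linarith
  have h2 : 1 / (4096 * w ^ 6) ≤ 1 / (256 * w ^ 2) := by
    apply one_div_le_one_div_of_le (by positivity)
    have : w ^ 2 ≤ w ^ 6 := pow_le_pow_right₀ hw1 (by norm_num)
    have : 0 < w ^ 6 := by positivity
    linarith
  have h3 : 1 / (64 * w ^ 2) = 4 * (1 / (256 * w ^ 2)) := by field_simp; norm_num
  have h4 : 0 < 1 / (256 * w ^ 2) := by positivity
  nlinarith

/-- one step of the phase -/
theorem phase_step {S x y α : ℝ} (hS : 20000 ≤ S) (hα : α = S ^ 2) (hy1 : 13 / 100 ≤ y)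
    (hy2 : y ≤ 113 / 100) (hx0 : 0 < x) (hxy : α = 8 * y * x ^ 2) {m : ℕ} (hm1 : x ≤ m)
    (hm2 : (m : ℝ) ≤ x + 6) :
    α + y - 1 / 100 ≤ α * (gg (m + 1) - gg m) ∧ α * (gg (m + 1) - gg m) ≤ α + y + 1 / 100 := by
  have hα0 : 0 < α := by rw [hα]; positivity
  -- x ≥ S / 4
  have hxS : S / 4 ≤ x := by
    have h1 : (S / 4) ^ 2 ≤ x ^ 2 := by
      have : S ^ 2 ≤ 8 * (113 / 100) * x ^ 2 := by
        rw [← hα, hxy]
        have : 0 ≤ x ^ 2 := sq_nonneg x
        nlinarith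
      nlinarith [sq_nonneg x]
    exact le_of_sq_le_sq h1 hx0.le
  have hx5 : 5000 ≤ x := by linarith
  have hm1' : 1 ≤ m := by
    have : (1 : ℝ) ≤ m := by linarith
    exact_mod_cast this
  set w : ℝ := (m : ℝ) + 1 / 2 with hw
  have hwx : x ≤ w := by rw [hw]; linarith
  have hw0 : 0 < w := by linarith
  have hw7 : w + 1 ≤ x + 8 := by rw [hw]; linarith
  have hw' : w + 1 = ((m + 1 : ℕ) : ℝ) + 1 / 2 := by push_cast; rw [hw]; ring
  have u1 := gg_upper (m := m) hw hm1'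
  have l1 := gg_lower (m := m) hw hm1'
  have u2 := gg_upper (m := m + 1) hw' (by omega)
  have l2 := gg_lower (m := m + 1) hw' (by omega)
  have e1 : 1 / (8 * w) - 1 / (8 * (w + 1)) = 1 / (8 * (w * (w + 1))) := by field_simp; ring
  -- the main term
  have hmain1 : α * (1 / (8 * (w * (w + 1)))) ≤ y := by
    rw [mul_one_div, div_le_iff₀ (by positivity), hxy]
    have : x ^ 2 ≤ w * (w + 1) := by nlinarith
    nlinarith
  have hmain2 : y - 1 / 200 ≤ α * (1 / (8 * (w * (w + 1)))) := by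
    rw [mul_one_div, le_div_iff₀ (by positivity), hxy]
    have h1 : w * (w + 1) ≤ (x + 8) ^ 2 := by nlinarith
    have h2 : (y - 1 / 200) * (8 * (w * (w + 1))) ≤ (y - 1 / 200) * (8 * (x + 8) ^ 2) := by
      apply mul_le_mul_of_nonneg_left (by linarith) (by linarith)
    have h3 : (y - 1 / 200) * (8 * (x + 8) ^ 2) ≤ 8 * y * x ^ 2 := by
      have h4 : (x + 8) ^ 2 = x ^ 2 + 16 * x + 64 := by ring
      rw [h4]
      have h5 : y * (16 * x + 64) ≤ 113 / 100 * (16 * x + 64) :=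
        mul_le_mul_of_nonneg_right hy2 (by linarith)
      nlinarith
    linarith
  have herr1 : α * (1 / (64 * w ^ 3)) ≤ 1 / 200 := by
    rw [mul_one_div, div_le_iff₀ (by positivity), hα]
    have h1 : x ^ 3 ≤ w ^ 3 := pow_le_pow_left₀ hx0.le hwx 3
    have h2 : (S / 4) ^ 3 ≤ x ^ 3 := pow_le_pow_left₀ (by linarith) hxS 3
    have h3 : (S / 4) ^ 3 = S * S ^ 2 / 64 := by ring
    have h4 : 20000 * S ^ 2 ≤ S * S ^ 2 := mul_le_mul_of_nonneg_right hS (by positivity)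
    nlinarith
  have herr2 : α * (1 / (64 * (w + 1) ^ 3)) ≤ 1 / 200 := by
    refine le_trans (mul_le_mul_of_nonneg_left ?_ hα0.le) herr1
    apply one_div_le_one_div_of_le (by positivity)
    have : w ^ 3 ≤ (w + 1) ^ 3 := pow_le_pow_left₀ hw0.le (by linarith) 3
    linarith
  have hDl : 1 + 1 / (8 * (w * (w + 1))) - 1 / (64 * (w + 1) ^ 3) ≤ gg (m + 1) - gg m := by
    rw [← e1]; linarith
  have hDu : gg (m + 1) - gg m ≤ 1 + 1 / (8 * (w * (w + 1))) + 1 / (64 * w ^ 3) := by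
    rw [← e1]; linarith
  have h1 := mul_le_mul_of_nonneg_left hDl hα0.le
  have h2 := mul_le_mul_of_nonneg_left hDu hα0.le
  have e2 : α * (1 + 1 / (8 * (w * (w + 1))) - 1 / (64 * (w + 1) ^ 3))
      = α + α * (1 / (8 * (w * (w + 1)))) - α * (1 / (64 * (w + 1) ^ 3)) := by ring
  have e3 : α * (1 + 1 / (8 * (w * (w + 1))) + 1 / (64 * w ^ 3))
      = α + α * (1 / (8 * (w * (w + 1)))) + α * (1 / (64 * w ^ 3)) := by ring
  rw [e2] at h1
  rw [e3] at h2
  constructor <;> linarith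

/-- there is a slope `(m+1)/m` with `m ≤ x + 6` in good phase -/
theorem exists_good_phase {S α : ℝ} (hS : 20000 ≤ S) (hα : α = S ^ 2) :
    ∃ m : ℕ, S / 4 ≤ m ∧ (m : ℝ) ≤ 99 / 100 * S ∧ Int.fract (α * gg m) ≤ 3 / 10 := by
  have hα0 : 0 < α := by rw [hα]; positivity
  set j : ℤ := ⌈α - 2 / 100⌉ with hj
  set y : ℝ := j + 15 / 100 - α with hy
  have hy1 : 13 / 100 ≤ y := by
    have := Int.le_ceil (α - 2 / 100)
    rw [← hj] at this
    rw [hy]; linarith
  have hy2 : y ≤ 113 / 100 := by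
    have := Int.ceil_lt_add_one (α - 2 / 100)
    rw [← hj] at this
    rw [hy]; linarith
  set x : ℝ := √(α / (8 * y)) with hx
  have hx0 : 0 < x := Real.sqrt_pos.2 (by positivity)
  have hx2 : x ^ 2 = α / (8 * y) := Real.sq_sqrt (by positivity)
  have hxy : α = 8 * y * x ^ 2 := by rw [hx2]; field_simp
  have hxS : S / 4 ≤ x := by
    have h1 : (S / 4) ^ 2 ≤ x ^ 2 := by
      have : S ^ 2 ≤ 8 * (113 / 100) * x ^ 2 := by
        rw [← hα]
        have h2 : α = 8 * y * x ^ 2 := hxy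
        have : 0 ≤ x ^ 2 := sq_nonneg x
        nlinarith
      nlinarith [sq_nonneg x]
    exact le_of_sq_le_sq h1 hx0.le
  have hxS2 : x ≤ 985 / 1000 * S := by
    have h1 : x ^ 2 ≤ (985 / 1000 * S) ^ 2 := by
      have : 8 * (13 / 100) * x ^ 2 ≤ S ^ 2 := by
        rw [← hα]
        have h2 : α = 8 * y * x ^ 2 := hxy
        have : 0 ≤ x ^ 2 := sq_nonneg x
        nlinarith
      nlinarith [sq_nonneg x]
    exact le_of_sq_le_sq h1 (by linarith)
  set n : ℕ := ⌈x⌉₊ with hn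
  have hn1 : x ≤ n := Nat.le_ceil x
  have hn2 : (n : ℝ) < x + 1 := Nat.ceil_lt_add_one hx0.le
  have hbound : ∀ i : ℕ, i ≤ 5 → S / 4 ≤ ((n + i : ℕ) : ℝ) ∧ ((n + i : ℕ) : ℝ) ≤ 99 / 100 * S := by
    intro i hi
    have hi' : (i : ℝ) ≤ 5 := by exact_mod_cast hi
    have hi0 : (0 : ℝ) ≤ i := Nat.cast_nonneg _
    push_cast
    constructor <;> linarith
  by_cases h0 : Int.fract (α * gg n) ≤ 3 / 10
  · exact ⟨n, by simpa using (hbound 0 (by norm_num)).1, by simpa using (hbound 0 (by norm_num)).2, h0⟩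
  rw [not_le] at h0
  set u : ℝ := Int.fract (α * gg n) with hu
  have hu1 : u < 1 := Int.fract_lt_one _
  -- accumulated phase
  have hacc : ∀ i : ℕ, i ≤ 5 → i * (j + 14 / 100) ≤ α * gg (n + i) - α * gg n ∧
      α * gg (n + i) - α * gg n ≤ i * (j + 16 / 100) := by
    intro i
    induction i with
    | zero => intro _; simp
    | succ i ih =>
      intro hi
      obtain ⟨ih1, ih2⟩ := ih (by omega)
      have hi' : (i : ℝ) + 1 ≤ 5 := by exact_mod_cast hi
      have hst := phase_step (m := n + i) hS hα hy1 hy2 hx0 hxy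
        (by push_cast; have : (0 : ℝ) ≤ i := Nat.cast_nonneg _
            linarith) (by push_cast; linarith)
      have e : α + y = j + 15 / 100 := by rw [hy]; ring
      rw [e] at hst
      have e2 : n + (i + 1) = n + i + 1 := by ring
      rw [e2]
      push_cast
      constructor <;> nlinarith [hst.1, hst.2]
  set z : ℝ := (1 - u) / (14 / 100) with hz
  have hz0 : 0 < z := div_pos (by linarith) (by norm_num)
  have hz5 : z < 5 := by rw [hz, div_lt_iff₀ (by norm_num)]; linarith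
  set i : ℕ := ⌈z⌉₊ with hi
  have hi5 : i ≤ 5 := by
    rw [hi]; exact Nat.ceil_le.2 (by push_cast; exact hz5.le)
  have hi5r : (i : ℝ) ≤ 5 := by exact_mod_cast hi5
  have hzi : z ≤ i := Nat.le_ceil z
  have hzi2 : (i : ℝ) < z + 1 := Nat.ceil_lt_add_one hz0.le
  have hz14 : z * (14 / 100) = 1 - u := div_mul_cancel₀ _ (by norm_num)
  obtain ⟨a1, a2⟩ := hacc i hi5
  refine ⟨n + i, (hbound i hi5).1, (hbound i hi5).2, ?_⟩
  have hfl : α * gg n = ⌊α * gg n⌋ + u := (Int.floor_add_fract _).symm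
  have hfr : Int.fract (α * gg (n + i)) = α * gg (n + i) - ((⌊α * gg n⌋ + i * j + 1 : ℤ) : ℝ) := by
    rw [Int.fract_eq_iff]
    refine ⟨?_, ?_, ⟨⌊α * gg n⌋ + i * j + 1, by ring⟩⟩
    · push_cast; nlinarith
    · push_cast; nlinarith
  rw [hfr]
  push_cast
  nlinarith

/-- The lower bound: the maximum exceeds `α²/2 - α` by more than any constant. -/
theorem lower_bound (C : ℝ) :
    ∃ α₁ : ℝ, 0 < α₁ ∧ ∀ α : ℝ, α₁ ≤ α → ∃ β : ℝ, 0 < β ∧ α ^ 2 / 2 - α + C ≤ N β α := by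
  refine ⟨(20000 + 20 * |C|) ^ 2, by positivity, ?_⟩
  intro α hα1
  set S : ℝ := √α with hSdef
  have hC0 : 0 ≤ |C| := abs_nonneg C
  have hα0 : 0 < α := lt_of_lt_of_le (by positivity) hα1
  have hα : α = S ^ 2 := (Real.sq_sqrt hα0.le).symm
  have hSC : 20000 + 20 * |C| ≤ S := by
    apply Real.le_sqrt_of_sq_le hα1
  have hS : 20000 ≤ S := by linarith
  have hS0 : 0 < S := by linarith
  obtain ⟨m, hm1, hm2, hph⟩ := exists_good_phase hS hα
  have hmr : (5000 : ℝ) ≤ m := by linarith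
  have hm0 : 0 < m := by
    have : (0 : ℝ) < m := by linarith
    exact_mod_cast this
  have hmr0 : (0 : ℝ) < m := by linarith
  refine ⟨((m + 1 : ℕ) : ℝ) / m, by positivity, ?_⟩
  rw [N_rat (Nat.succ_pos m) hm0 hα0.le]
  change _ ≤ ((R (m + 1) m ⌊α * gg m⌋₊ : ℕ) : ℝ)
  have hgg0 : 0 ≤ α * gg m := mul_nonneg hα0.le (Real.sqrt_nonneg _)
  set T : ℕ := ⌊α * gg m⌋₊ with hT
  set u : ℝ := Int.fract (α * gg m) with hu
  have hu0 : 0 ≤ u := Int.fract_nonneg _
  have hTu : (T : ℝ) = α * gg m - u := by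
    rw [hT, hu, natCast_floor_eq_intCast_floor hgg0, Int.self_sub_fract]
  set w : ℝ := (m : ℝ) + 1 / 2 with hw
  have hgl := gg_lower (m := m) hw hm0
  have hgu := gg_upper (m := m) hw hm0
  have hw5 : 5000 ≤ w := by rw [hw]; linarith
  have h1 : 1 / (8 * w) ≤ 1 / 40000 := by
    apply one_div_le_one_div_of_le (by norm_num); linarith
  have h1' : 0 < 1 / (8 * w) := by positivity
  have h2 : 1 / (64 * w ^ 3) ≤ 1 / 40000 := by
    apply one_div_le_one_div_of_le (by norm_num)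
    have : (5000 : ℝ) ^ 3 ≤ w ^ 3 := pow_le_pow_left₀ (by norm_num) hw5 3
    linarith
  set g : ℝ := gg m with hg
  have hgm : (m : ℝ) + 499 / 1000 ≤ g := by rw [hw] at hgl; linarith
  have hg0 : 0 < g := by linarith
  have hgS : g ≤ 995 / 1000 * S := by rw [hw] at hgu; linarith
  have hg2 : g ^ 2 = m * (m + 1) := by
    rw [hg, gg, Real.sq_sqrt (by positivity)]; push_cast; ring
  have hmT : m ≤ T := by
    have : (m : ℝ) ≤ T := by
      rw [hTu]
      have : 1 * g ≤ α * g := mul_le_mul_of_nonneg_right (by rw [hα]; nlinarith) hg0.le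
      linarith
    exact_mod_cast this
  have hR := R_lower m hm0 T hmT
  have h3 : ((T : ℝ) - m) ^ 2 / (2 * (m * (m + 1))) = (α * g - (u + m)) ^ 2 / (2 * g ^ 2) := by
    rw [hg2, hTu]; congr 2; ring
  have h4 : (α * g - (u + m)) ^ 2 / (2 * g ^ 2)
      = α ^ 2 / 2 - α + α * ((g - (u + m)) / g) + (u + m) ^ 2 / (2 * g ^ 2) := by
    field_simp; ring
  have h5 : 0 ≤ (u + m) ^ 2 / (2 * g ^ 2) := by positivity
  have h6 : 2 / 10 * S ≤ α * ((g - (u + m)) / g) := by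
    rw [← mul_div_assoc, le_div_iff₀ hg0, hα]
    have h7 : 199 / 1000 ≤ g - (u + m) := by linarith
    have h8 : S ^ 2 * (199 / 1000) ≤ S ^ 2 * (g - (u + m)) :=
      mul_le_mul_of_nonneg_left h7 (by positivity)
    have h9 : 2 / 10 * S * g ≤ 2 / 10 * S * (995 / 1000 * S) :=
      mul_le_mul_of_nonneg_left hgS (by positivity)
    nlinarith
  rw [h3, h4] at hR
  have h10 : C ≤ |C| := le_abs_self C
  linarith

end Pool.Agent.Lib.MP_a2cf47_nt
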