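import Pool.Agent.Lib.MP_a2cf47_nt.Inner
import Pool.Agent.Lib.MP_a2cf47_nt.Lower2

set_option autoImplicit false

open Real Finset

namespace Pool.Agent.Lib.MP_a2cf47_nt

theorem outer_pair {β : ℝ} {a b : ℕ} (ha : 0 < a) (hb : 0 < b) (hab : Nat.Coprime a b)
    (hβ : β = (a : ℝ) / b → 2 * √((a : ℝ) * b) ≤ a + b - 1) {K : ℝ} (hK : 0 ≤ K) :
    ∀ᶠ L : ℝ in Filter.atTop, ∀ α : ℝ, L < α → ∀ β' : ℝ, 0 < β' → |β' - β| < 1 / L →
      |b * β' - a| * α ≤ K → (N β' α : ℝ) ≤ α ^ 2 / 2 - α + L := by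
  have hbr : (0 : ℝ) < b := by exact_mod_cast hb
  have har : (0 : ℝ) < a := by exact_mod_cast ha
  by_cases h : β = (a : ℝ) / b
  · obtain ⟨C, α₁, hα₁, h1⟩ := upper_near ha hb hab hK
    filter_upwards [Filter.eventually_ge_atTop C, Filter.eventually_ge_atTop α₁] with L hL1 hL2
    intro α hα β' hβ' _ hdev
    have h2 := h1 α (by linarith) β' hβ' hdev
    have hs : 0 < √((a : ℝ) * b) := Real.sqrt_pos.2 (by positivity)
    have h3 : 1 ≤ ((a : ℝ) + b - 1) / (2 * √((a : ℝ) * b)) := by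
      rw [le_div_iff₀ (by positivity)]; linarith [hβ h]
    have hα0 : 0 < α := by linarith
    have h4 : α * 1 ≤ α * (((a : ℝ) + b - 1) / (2 * √((a : ℝ) * b))) :=
      mul_le_mul_of_nonneg_left h3 hα0.le
    linarith
  · set d : ℝ := |b * β - a| with hd
    have hd0 : 0 < d := by
      rw [hd, abs_pos]
      intro h0
      apply h
      field_simp
      linarith
    filter_upwards [Filter.eventually_gt_atTop ((b + K) / d), Filter.eventually_gt_atTop 0]
      with L hL1 hL2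
    intro α hα β' hβ' hdist hdev
    exfalso
    have hα0 : 0 < α := by linarith
    have h1 : d ≤ |b * β' - a| + b * |β' - β| := by
      have : b * β - a = (b * β' - a) - b * (β' - β) := by ring
      rw [hd, this]
      calc _ ≤ |b * β' - a| + |b * (β' - β)| := abs_sub _ _
        _ = _ := by rw [abs_mul, abs_of_pos hbr]
    have h2 : |b * β' - a| ≤ K / L := by
      rw [le_div_iff₀ hL2]
      refine le_trans ?_ hdev
      exact mul_le_mul_of_nonneg_left hα.le (abs_nonneg _)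
    have h3 : b * |β' - β| ≤ b * (1 / L) := mul_le_mul_of_nonneg_left hdist.le hbr.le
    have h4 : (b + K) / L < d := by
      rw [div_lt_iff₀ hd0] at hL1
      rw [div_lt_iff₀ hL2]; linarith
    have h5 : (b + K) / L = b * (1 / L) + K / L := by ring
    linarith

theorem outer {β : ℝ}
    (hβ : ∀ p q : ℕ, 0 < p → 0 < q → Nat.Coprime p q → β = (p : ℝ) / q →
      2 * √((p : ℝ) * q) ≤ p + q - 1) :
    ∃ r ε : ℝ, 0 < r ∧ 0 < ε ∧ ∀ α : ℝ, r < α → ∀ β' : ℝ, 0 < β' → |β' - β| < ε →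
      ∃ γ : ℝ, 0 < γ ∧ N β' α < N γ α := by
  -- reduction to an upper bound
  suffices hmain : ∃ r ε C : ℝ, 0 < r ∧ 0 < ε ∧ ∀ α : ℝ, r < α → ∀ β' : ℝ, 0 < β' → |β' - β| < ε →
      (N β' α : ℝ) ≤ α ^ 2 / 2 - α + C by
    obtain ⟨r, ε, C, hr, hε, h⟩ := hmain
    obtain ⟨α₁, hα₁, hl⟩ := lower_bound (C + 1)
    refine ⟨max r α₁, ε, lt_of_lt_of_le hr (le_max_left _ _), hε, ?_⟩
    intro α hα β' hβ' hd
    obtain ⟨γ, hγ, hN⟩ := hl α (le_trans (le_max_right _ _) hα.le)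
    refine ⟨γ, hγ, ?_⟩
    have h1 := h α (lt_of_le_of_lt (le_max_left _ _) hα) β' hβ' hd
    have h2 : (N β' α : ℝ) < N γ α := by linarith
    exact_mod_cast h2
  rcases le_or_gt β 0 with h0 | h0
  · refine ⟨2, 9 / 64, 0, by norm_num, by norm_num, ?_⟩
    intro α hα β' hβ' hd
    have h1 := abs_lt.1 hd
    have := N_lt_of_small hβ' (by linarith) hα
    linarith
  -- β ≠ 1
  have hne : β ≠ 1 := by
    intro h1
    have := hβ 1 1 one_pos one_pos (Nat.coprime_one_left 1) (by rw [h1]; norm_num)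
    norm_num at this
  have hs : 0 < √β := Real.sqrt_pos.2 h0
  have hφ : 2 < √β + 1 / √β := by
    have h1 : √β + 1 / √β - 2 = (√β - 1) ^ 2 / √β := by field_simp; ring
    have h2 : √β - 1 ≠ 0 := by
      intro h3
      apply hne
      have : √β = 1 := by linarith
      have h4 := Real.mul_self_sqrt h0.le
      rw [this] at h4; linarith
    have h3 : 0 < (√β - 1) ^ 2 / √β := by positivity
    linarith
  set γ0 : ℝ := (√β + 1 / √β - 2) / 2 with hγ0
  have hγ00 : 0 < γ0 := by rw [hγ0]; linarith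
  have hcont : ContinuousAt (fun x : ℝ => √x + 1 / √x) β := by
    apply ContinuousAt.add
    · exact Real.continuous_sqrt.continuousAt
    · apply ContinuousAt.div continuousAt_const Real.continuous_sqrt.continuousAt hs.ne'
  have hev : ∀ᶠ x in nhds β, 2 + γ0 < √x + 1 / √x := by
    apply hcont.eventually_const_lt
    rw [hγ0]; linarith
  obtain ⟨ε₁, hε₁, hε₁'⟩ := Metric.eventually_nhds_iff.1 hev
  obtain ⟨W, hW, K, hK, α₁, hα₁, hdich⟩ := upper_dichotomy (show (0 : ℝ) < γ0 / 2 by linarith)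
  have hevL : ∀ᶠ L : ℝ in Filter.atTop, ∀ ab ∈ (Finset.Icc 1 (8 * W) ×ˢ Finset.Icc 1 W),
      Nat.Coprime ab.1 ab.2 → ∀ α : ℝ, L < α → ∀ β' : ℝ, 0 < β' → |β' - β| < 1 / L →
      |ab.2 * β' - ab.1| * α ≤ K → (N β' α : ℝ) ≤ α ^ 2 / 2 - α + L := by
    rw [Filter.eventually_all_finset]
    rintro ⟨a, b⟩ hab
    rw [Finset.mem_product, Finset.mem_Icc, Finset.mem_Icc] at hab
    obtain ⟨⟨ha1, haB⟩, ⟨hb1, hbB⟩⟩ := hab
    simp only at ha1 haB hb1 hbB ⊢
    by_cases hcop : Nat.Coprime a b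
    · filter_upwards [outer_pair ha1 hb1 hcop (hβ a b ha1 hb1 hcop) hK.le] with L hL
      intro _
      exact hL
    · exact Filter.Eventually.of_forall fun _ h => absurd h hcop
  obtain ⟨L, hL, hL1⟩ := (hevL.and (Filter.eventually_ge_atTop 1)).exists
  refine ⟨max (max L α₁) 2, min (1 / L) ε₁, L, by positivity, by positivity, ?_⟩
  intro α hα β' hβ' hd
  have hαL : L < α := lt_of_le_of_lt (le_trans (le_max_left _ _) (le_max_left _ _)) hα
  have hαα₁ : α₁ < α := lt_of_le_of_lt (le_trans (le_max_right _ _) (le_max_left _ _)) hα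
  have hα2 : 2 < α := lt_of_le_of_lt (le_max_right _ _) hα
  have hd1 : |β' - β| < 1 / L := lt_of_lt_of_le hd (min_le_left _ _)
  have hd2 : |β' - β| < ε₁ := lt_of_lt_of_le hd (min_le_right _ _)
  rcases lt_or_ge β' (9 / 64) with h1 | h1
  · have := N_lt_of_small hβ' h1 hα2
    linarith
  rcases lt_or_ge (64 / 9) β' with h2 | h2
  · have := N_lt_of_large h2 hα2
    linarith
  rcases hdich α hαα₁.le β' h1 h2 with h3 | ⟨a, b, ha, hb, hbW, haW, hab, hdev⟩
  · have h4 := hε₁' (by rw [Real.dist_eq]; exact hd2)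
    have h5 : α / 2 * (2 + γ0) ≤ α / 2 * (√β' + 1 / √β') :=
      mul_le_mul_of_nonneg_left h4.le (by linarith)
    have h6 : α / 2 * (2 + γ0) = α + γ0 / 2 * α := by ring
    linarith
  · exact hL (a, b) (by
      rw [Finset.mem_product, Finset.mem_Icc, Finset.mem_Icc]; exact ⟨⟨ha, haW⟩, ⟨hb, hbW⟩⟩)
      hab α hαL β' hβ' hd1 hdev

end Pool.Agent.Lib.MP_a2cf47_nt
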