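import Pool.Agent.Lib.MP_a2cf47_nt.Count

set_option autoImplicit false

open Real Finset

namespace Pool.Agent.Lib.MP_a2cf47_nt

/-- positive solutions of `a k + b m ≤ T` -/
def Rset (a b T : ℕ) : Set (ℕ × ℕ) := {x | 0 < x.1 ∧ 0 < x.2 ∧ a * x.1 + b * x.2 ≤ T}

noncomputable def R (a b T : ℕ) : ℕ := (Rset a b T).ncard

theorem pts_rat {a b : ℕ} (ha : 0 < a) (hb : 0 < b) {α : ℝ} (hα : 0 ≤ α) :
    pts ((a : ℝ) / b) α = Rset a b ⌊α * √((a : ℝ) * b)⌋₊ := by
  have hb' : (0 : ℝ) < b := by exact_mod_cast hb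
  have ha' : (0 : ℝ) < a := by exact_mod_cast ha
  have hs : (b : ℝ) * √((a : ℝ) / b) = √((a : ℝ) * b) := by
    rw [show (a : ℝ) * b = b ^ 2 * (a / b) by field_simp, Real.sqrt_mul (by positivity),
      Real.sqrt_sq hb'.le]
  ext ⟨k, m⟩
  simp only [pts, Rset, Set.mem_ofPred_eq]
  refine and_congr_right fun _ => and_congr_right fun _ => ?_
  rw [Nat.le_floor_iff (by positivity)]
  push_cast
  rw [← mul_le_mul_iff_right₀ hb']
  have e : (b : ℝ) * (α * √((a : ℝ) / b) - k * (a / b)) = α * √((a : ℝ) * b) - a * k := by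
    rw [← hs]; field_simp
  rw [e]
  constructor <;> intro h <;> linarith

theorem N_rat {a b : ℕ} (ha : 0 < a) (hb : 0 < b) {α : ℝ} (hα : 0 ≤ α) :
    N ((a : ℝ) / b) α = R a b ⌊α * √((a : ℝ) * b)⌋₊ := by
  unfold N R; rw [pts_rat ha hb hα]

theorem Rset_eq_image {a b T : ℕ} (hb : 0 < b) (n : ℕ) (hn : T < a * (n + 1)) :
    Rset a b T = (((range n).sigma (fun k => range ((T - a * (k + 1)) / b))).image
      (fun p : (_ : ℕ) × ℕ => ((p.1 + 1, p.2 + 1) : ℕ × ℕ)) : Finset (ℕ × ℕ)) := by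
  ext ⟨k, m⟩
  simp only [Rset, Set.mem_ofPred_eq, coe_image, Set.mem_image, mem_coe, Finset.mem_sigma,
    Finset.mem_range, Prod.mk.injEq]
  constructor
  · rintro ⟨hk, hm, h⟩
    refine ⟨⟨k - 1, m - 1⟩, ⟨?_, ?_⟩, by simp; omega, by simp; omega⟩
    · simp only
      by_contra hcon
      have hk2 : n + 1 ≤ k := by omega
      have := Nat.mul_le_mul_left a hk2
      omega
    · simp only
      have : k - 1 + 1 = k := by omega
      rw [this, Nat.lt_iff_add_one_le, Nat.le_div_iff_mul_le hb]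
      have h2 : (m - 1 + 1) * b = b * m := by rw [Nat.sub_add_cancel hm]; ring
      rw [h2]
      omega
  · rintro ⟨⟨j, i⟩, ⟨hj, hi⟩, rfl, rfl⟩
    simp only at hj hi ⊢
    refine ⟨by omega, by omega, ?_⟩
    rw [Nat.lt_iff_add_one_le, Nat.le_div_iff_mul_le hb] at hi
    have h3 : 0 < (i + 1) * b := by positivity
    have h4 : (i + 1) * b = b * (i + 1) := by ring
    omega

theorem Rset_finite {a b T : ℕ} (ha : 0 < a) (hb : 0 < b) : (Rset a b T).Finite := by
  rw [Rset_eq_image hb T (by nlinarith)]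
  exact Finset.finite_toSet _

theorem R_eq_sum {a b T : ℕ} (hb : 0 < b) (n : ℕ) (hn : T < a * (n + 1)) :
    R a b T = ∑ k ∈ range n, (T - a * (k + 1)) / b := by
  unfold R
  rw [Rset_eq_image hb n hn, Set.ncard_coe_finset, Finset.card_image_of_injective,
    Finset.card_sigma]
  · simp
  · rintro ⟨a, b⟩ ⟨c, d⟩ h
    simp only [Prod.mk.injEq] at h
    obtain ⟨h1, h2⟩ := h
    have h3 : a = c := by omega
    have h4 : b = d := by omega
    subst h3 h4
    rfl

theorem sum_mod_eq {a b : ℕ} (T : ℕ) (hb : 0 < b) (hab : Nat.Coprime a b) :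
    ∑ i ∈ range b, (T + a * i) % b = ∑ i ∈ range b, i := by
  have hinj : Set.InjOn (fun i => (T + a * i) % b) (range b : Set ℕ) := by
    intro i hi j hj hij
    simp only [coe_range, Set.mem_Iio] at hi hj
    have h1 : (T + a * i) ≡ (T + a * j) [MOD b] := hij
    have h2 : a * i ≡ a * j [MOD b] := Nat.ModEq.add_left_cancel' T h1
    have h3 : i ≡ j [MOD b] := Nat.ModEq.cancel_left_of_coprime hab.symm h2
    exact Nat.ModEq.eq_of_lt_of_lt h3 hi hj
  have himg : (range b).image (fun i => (T + a * i) % b) = range b := by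
    apply Finset.eq_of_subset_of_card_le
    · intro x hx
      rw [Finset.mem_image] at hx
      obtain ⟨i, _, rfl⟩ := hx
      exact Finset.mem_range.2 (Nat.mod_lt _ hb)
    · rw [Finset.card_image_of_injOn hinj]
  conv_rhs => rw [← himg]
  rw [Finset.sum_image hinj]

theorem two_mul_sum_div {a b : ℕ} (T : ℕ) (hb : 0 < b) (hab : Nat.Coprime a b) :
    2 * ((∑ i ∈ range b, (T + a * i) / b : ℕ) : ℤ) = 2 * T + (a - 1) * (b - 1) := by
  have h1 : ∀ i, (((T + a * i) / b : ℕ) : ℤ) * b = (T + a * i : ℤ) - (((T + a * i) % b : ℕ) : ℤ) := by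
    intro i
    have := Nat.div_add_mod (T + a * i) b
    have h2 : ((b * ((T + a * i) / b) + (T + a * i) % b : ℕ) : ℤ) = ((T + a * i : ℕ) : ℤ) := by
      rw [this]
    push_cast at h2 ⊢
    linarith
  have hb' : (0 : ℤ) < b := by exact_mod_cast hb
  have h3 : ((∑ i ∈ range b, (T + a * i) / b : ℕ) : ℤ) * b
      = b * T + a * (∑ i ∈ range b, (i : ℤ)) - ∑ i ∈ range b, (i : ℤ) := by
    push_cast
    rw [Finset.sum_mul]
    have h4 : ∀ i ∈ range b, (T + a * i : ℤ) / b * b = (T + a * i : ℤ) - ((T + a * i : ℤ) % b) := by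
      intro i _
      have := h1 i
      push_cast at this
      exact this
    rw [Finset.sum_congr rfl h4, Finset.sum_sub_distrib, Finset.sum_add_distrib, ← Finset.mul_sum]
    have h5 := sum_mod_eq (a := a) (b := b) T hb hab
    have h6 : ∑ i ∈ range b, ((T + a * i : ℤ) % b) = ∑ i ∈ range b, (i : ℤ) := by
      have := congrArg (fun n : ℕ => (n : ℤ)) h5
      push_cast at this
      exact this
    rw [h6, Finset.sum_const, card_range, nsmul_eq_mul]
  have h7 : 2 * ∑ i ∈ range b, (i : ℤ) = b * (b - 1) := by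
    have h8 := Finset.sum_range_id_mul_two b
    have h9 := congrArg (fun n : ℕ => (n : ℤ)) h8
    push_cast [Nat.cast_sub hb] at h9
    linarith
  have h10 : (2 * ((∑ i ∈ range b, (T + a * i) / b : ℕ) : ℤ)) * b
      = (2 * T + (a - 1) * (b - 1)) * b := by
    have : 2 * (((∑ i ∈ range b, (T + a * i) / b : ℕ) : ℤ) * b)
        = 2 * b * T + a * (2 * ∑ i ∈ range b, (i : ℤ)) - 2 * ∑ i ∈ range b, (i : ℤ) := by
      rw [h3]; ring
    rw [h7] at this
    linarith
  exact mul_right_cancel₀ hb'.ne' h10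

theorem R_add {a b : ℕ} (T : ℕ) (ha : 0 < a) (hb : 0 < b) (hab : Nat.Coprime a b) :
    2 * (R a b (T + a * b) : ℤ) = 2 * R a b T + 2 * T + (a - 1) * (b - 1) := by
  have h1 : R a b T = ∑ k ∈ range T, (T - a * (k + 1)) / b := R_eq_sum hb T (by nlinarith)
  have h2 : R a b (T + a * b) = ∑ k ∈ range (b + T), (T + a * b - a * (k + 1)) / b :=
    R_eq_sum hb (b + T) (by nlinarith)
  rw [Finset.sum_range_add] at h2
  have h3 : ∑ k ∈ range T, (T + a * b - a * (b + k + 1)) / b
      = ∑ k ∈ range T, (T - a * (k + 1)) / b := by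
    apply Finset.sum_congr rfl
    intro k _
    congr 1
    have : a * (b + k + 1) = a * (k + 1) + a * b := by ring
    omega
  have h4 : ∑ k ∈ range b, (T + a * b - a * (k + 1)) / b = ∑ i ∈ range b, (T + a * i) / b := by
    rw [← Finset.sum_range_reflect]
    apply Finset.sum_congr rfl
    intro i hi
    rw [Finset.mem_range] at hi
    congr 1
    have h5 : b - 1 - i + 1 = b - i := by omega
    rw [h5, Nat.mul_sub]
    have : a * i ≤ a * b := Nat.mul_le_mul_left a hi.le
    omega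
  rw [h3, h4, ← h1] at h2
  rw [h2]
  push_cast
  have := two_mul_sum_div T hb hab
  push_cast at this
  linarith

/-- closed form along a residue class modulo `ab` -/
theorem R_closed {a b : ℕ} (T t : ℕ) (ha : 0 < a) (hb : 0 < b) (hab : Nat.Coprime a b) :
    8 * (a * b) * (R a b (T + a * b * t) : ℤ)
      = (2 * (T + a * b * t) - (a + b - 1)) ^ 2 - (2 * T - (a + b - 1)) ^ 2
        + 8 * (a * b) * R a b T := by
  induction t with
  | zero => simp
  | succ t ih =>
    have h1 := R_add (T + a * b * t) ha hb hab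
    have h2 : T + a * b * (t + 1) = T + a * b * t + a * b := by ring
    rw [h2]
    have h3 : 8 * ((a : ℤ) * b) * (R a b (T + a * b * t + a * b) : ℤ)
        = 4 * (a * b) * (2 * (R a b (T + a * b * t + a * b) : ℤ)) := by ring
    rw [h3, h1]
    push_cast at ih ⊢
    linear_combination ih

theorem R_small {a b T : ℕ} (h : T < a + b) : R a b T = 0 := by
  unfold R
  have : Rset a b T = ∅ := by
    ext ⟨k, m⟩
    simp only [Rset, Set.mem_ofPred_eq, Set.mem_empty_iff_false, iff_false, not_and, not_le]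
    intro hk hm
    have h1 : a ≤ a * k := Nat.le_mul_of_pos_right a hk
    have h2 : b ≤ b * m := Nat.le_mul_of_pos_right b hm
    omega
  rw [this]; simp

end Pool.Agent.Lib.MP_a2cf47_nt
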