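import Pool.Agent.Lib.MP_a2cf47_nt.Local

set_option autoImplicit false

open Real Finset

namespace Pool.Agent.Lib.MP_a2cf47_nt

/-- outside `[9/64, 64/9]` slopes are bad -/
theorem N_lt_of_large {β α : ℝ} (hβ : 64 / 9 < β) (hα : 2 < α) :
    (N β α : ℝ) < α ^ 2 / 2 - α := by
  have hβ0 : 0 < β := by linarith
  have hs : 0 < √β := Real.sqrt_pos.2 hβ0
  have hss : √β * √β = β := Real.mul_self_sqrt hβ0.le
  have hs2 : 8 / 3 < √β := by
    apply Real.lt_sqrt_of_sq_lt; norm_num; exact hβ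
  rcases le_or_gt (√β) α with h | h
  · have h1 := N_le_pairing hβ0 (by linarith : (0:ℝ) ≤ α) 0 (Nat.zero_le _)
    simp only [Nat.cast_zero, zero_div, zero_mul, sub_zero] at h1
    nlinarith
  · have h1 : α / √β < (0 : ℕ) + 1 := by
      rw [Nat.cast_zero, zero_add, div_lt_one hs]; exact h
    rw [N_eq_sum hβ0 0 h1]
    simp
    nlinarith

theorem N_lt_of_small {β α : ℝ} (hβ0 : 0 < β) (hβ : β < 9 / 64) (hα : 2 < α) :
    (N β α : ℝ) < α ^ 2 / 2 - α := by
  rw [← N_symm hβ0]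
  apply N_lt_of_large _ hα
  rw [lt_div_iff₀ hβ0]
  linarith

theorem exists_fract_ge (c η : ℝ) (hη : η ≠ 0) :
    ∃ t : ℕ, (t : ℝ) ≤ 1 / |η| + 1 ∧ 1 - |η| ≤ Int.fract (c + t * η) := by
  rcases lt_or_gt_of_ne hη with h | h
  · -- moving down
    have habs : |η| = -η := abs_of_neg h
    set y : ℝ := Int.fract c / (-η) with hy
    have hy0 : 0 ≤ y := div_nonneg (Int.fract_nonneg c) (by linarith)
    have hneg : 0 < -η := by linarith
    refine ⟨⌊y⌋₊ + 1, ?_, ?_⟩
    · have h1 : (⌊y⌋₊ : ℝ) ≤ y := Nat.floor_le hy0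
      have h2 : y ≤ 1 / |η| := by
        rw [habs, hy]
        exact div_le_div_of_nonneg_right (Int.fract_lt_one c).le hneg.le
      push_cast; linarith
    · have h1 : (⌊y⌋₊ : ℝ) ≤ y := Nat.floor_le hy0
      have h2 : y < ⌊y⌋₊ + 1 := Nat.lt_floor_add_one y
      have h3 : y * (-η) = Int.fract c := div_mul_cancel₀ _ hneg.ne'
      have h4 : Int.fract c < ((⌊y⌋₊ : ℝ) + 1) * (-η) := by
        rw [← h3]; exact mul_lt_mul_of_pos_right h2 hneg
      have h5 : (⌊y⌋₊ : ℝ) * (-η) ≤ Int.fract c := by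
        rw [← h3]; exact mul_le_mul_of_nonneg_right h1 hneg.le
      rw [habs]
      push_cast
      have hc : c = ⌊c⌋ + Int.fract c := (Int.floor_add_fract c).symm
      rcases le_or_gt (-η) 1 with h6 | h6
      · have h7 : Int.fract (c + ((⌊y⌋₊ : ℝ) + 1) * η) = c + ((⌊y⌋₊ : ℝ) + 1) * η - ((⌊c⌋ - 1 : ℤ) : ℝ) := by
          rw [Int.fract_eq_iff]
          refine ⟨?_, ?_, ⟨⌊c⌋ - 1, by push_cast; ring⟩⟩
          · push_cast; nlinarith
          · push_cast; nlinarith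
        rw [h7]; push_cast; nlinarith
      · have := Int.fract_nonneg (c + ((⌊y⌋₊ : ℝ) + 1) * η)
        linarith
  · have habs : |η| = η := abs_of_pos h
    rw [habs]
    set y : ℝ := (1 - η - Int.fract c) / η with hy
    refine ⟨⌈y⌉₊, ?_, ?_⟩
    · rcases le_or_gt y 0 with h0 | h0
      · rw [Nat.ceil_eq_zero.2 h0]
        have : 0 < 1 / η := by positivity
        push_cast; linarith
      · have h1 : (⌈y⌉₊ : ℝ) < y + 1 := Nat.ceil_lt_add_one h0.le
        have h2 : y ≤ 1 / η := by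
          rw [hy]
          apply div_le_div_of_nonneg_right _ h.le
          have := Int.fract_nonneg c
          linarith
        linarith
    · have hc : c = ⌊c⌋ + Int.fract c := (Int.floor_add_fract c).symm
      have h0 := Int.fract_nonneg c
      have h1' := Int.fract_lt_one c
      have h3 : y * η = 1 - η - Int.fract c := div_mul_cancel₀ _ h.ne'
      have h4 : y * η ≤ (⌈y⌉₊ : ℝ) * η := mul_le_mul_of_nonneg_right (Nat.le_ceil y) h.le
      have h5 : (⌈y⌉₊ : ℝ) * η < 1 - Int.fract c := by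
        rcases le_or_gt y 0 with h0' | h0'
        · rw [Nat.ceil_eq_zero.2 h0']; push_cast; linarith
        · have h1 : (⌈y⌉₊ : ℝ) < y + 1 := Nat.ceil_lt_add_one h0'.le
          nlinarith
      have h6 : 0 ≤ (⌈y⌉₊ : ℝ) * η := by positivity
      have h7 : Int.fract (c + (⌈y⌉₊ : ℝ) * η) = c + (⌈y⌉₊ : ℝ) * η - (⌊c⌋ : ℝ) := by
        rw [Int.fract_eq_iff]
        refine ⟨by linarith, by linarith, ⟨⌊c⌋, by ring⟩⟩
      rw [h7]; linarith

/-- `fract` under a small perturbation -/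
theorem fract_add_ge {x y : ℝ} (h : Int.fract x + |y| < 1) :
    Int.fract x - |y| ≤ Int.fract (x + y) := by
  have hx : x = ⌊x⌋ + Int.fract x := (Int.floor_add_fract x).symm
  have h0 := Int.fract_nonneg x
  have hy1 := neg_abs_le y
  have hy2 := le_abs_self y
  rcases le_or_gt 0 (Int.fract x + y) with h1 | h1
  · have h2 : Int.fract (x + y) = x + y - (⌊x⌋ : ℝ) := by
      rw [Int.fract_eq_iff]
      exact ⟨by linarith, by linarith, ⟨⌊x⌋, by ring⟩⟩
    rw [h2]; linarith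
  · have := Int.fract_nonneg (x + y)
    linarith

/-- choose the residue: `c + w a / b` has fractional part `(b - 1 - i + fract (b c)) / b` -/
theorem exists_w {a b : ℕ} (hb : 0 < b) (hab : Nat.Coprime a b) (c : ℝ) (i : ℕ) (hi : i < b) :
    ∃ w : ℕ, w < b ∧ Int.fract (c + w * (a / b)) = (i + Int.fract (b * c)) / b := by
  have hb' : (0 : ℝ) < b := by exact_mod_cast hb
  have hbez : (a : ℤ) * Nat.gcdA a b + b * Nat.gcdB a b = 1 := by
    have := Nat.gcd_eq_gcd_ab a b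
    rw [hab] at this
    push_cast at this
    linarith
  set w0 : ℤ := (i - ⌊(b : ℝ) * c⌋) * Nat.gcdA a b with hw0
  have hbz : (0 : ℤ) < b := by exact_mod_cast hb
  have h1 : 0 ≤ w0 % b := Int.emod_nonneg _ hbz.ne'
  have h2 : w0 % b < b := Int.emod_lt_of_pos _ hbz
  have h3 : (((w0 % b).toNat : ℕ) : ℤ) = w0 % b := Int.toNat_of_nonneg h1
  refine ⟨(w0 % b).toNat, by omega, ?_⟩
  have h3r : (((w0 % b).toNat : ℕ) : ℝ) = ((w0 % b : ℤ) : ℝ) := by exact_mod_cast h3
  rw [h3r]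
  -- a * (w0 % b) + floor (b c) = i + b * z
  have h4 : ∃ z : ℤ, (a : ℤ) * (w0 % b) + ⌊(b : ℝ) * c⌋ = i + b * z := by
    have h5 := Int.emod_add_mul_ediv w0 b
    refine ⟨-(a : ℤ) * (w0 / b) - (i - ⌊(b : ℝ) * c⌋) * Nat.gcdB a b, ?_⟩
    have h6 : w0 % b = w0 - b * (w0 / b) := by linarith
    rw [h6, hw0]
    linear_combination (i - ⌊(b : ℝ) * c⌋) * hbez
  obtain ⟨z, hz⟩ := h4
  have hzr : (a : ℝ) * ((w0 % b : ℤ) : ℝ) + (⌊(b : ℝ) * c⌋ : ℝ) = i + b * z := by
    exact_mod_cast hz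
  rw [Int.fract_eq_iff]
  have hf0 := Int.fract_nonneg ((b : ℝ) * c)
  have hf1 := Int.fract_lt_one ((b : ℝ) * c)
  have hi' : (i : ℝ) + 1 ≤ b := by exact_mod_cast hi
  refine ⟨by positivity, ?_, z, ?_⟩
  · rw [div_lt_one hb']; linarith
  · have hbc : (b : ℝ) * c = ⌊(b : ℝ) * c⌋ + Int.fract ((b : ℝ) * c) := (Int.floor_add_fract _).symm
    have e : c + ((w0 % b : ℤ) : ℝ) * (a / b) - (i + Int.fract ((b : ℝ) * c)) / b
        = (b * c + a * ((w0 % b : ℤ) : ℝ) - (i + Int.fract ((b : ℝ) * c))) / b := by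
      generalize Int.fract ((b : ℝ) * c) = f
      field_simp
    rw [e, div_eq_iff hb'.ne']
    linarith

theorem exists_fract_ge_rat {a b : ℕ} (hb : 0 < b) (hab : Nat.Coprime a b) (c η : ℝ)
    (hη : b * |η| < 1) :
    ∃ w : ℕ, w < b ∧ 1 - 1 / (b : ℝ) - 2 * |η| ≤ Int.fract (c + w * ((a + η) / b)) := by
  have hb' : (0 : ℝ) < b := by exact_mod_cast hb
  have hη0 := abs_nonneg η
  have hf0 := Int.fract_nonneg ((b : ℝ) * c)
  have hf1 := Int.fract_lt_one ((b : ℝ) * c)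
  have hwη : ∀ w : ℕ, w < b → |(w : ℝ) * η / b| ≤ |η| := by
    intro w hw
    have hw' : (w : ℝ) ≤ b := by exact_mod_cast hw.le
    rw [abs_div, abs_mul, Nat.abs_cast, Nat.abs_cast, div_le_iff₀ hb', mul_comm |η|]
    exact mul_le_mul_of_nonneg_right hw' hη0
  have hsplit : ∀ w : ℕ, c + w * ((a + η) / b) = (c + w * (a / b)) + w * η / b := by
    intro w; ring
  by_cases h1 : b * |η| < 1 - Int.fract ((b : ℝ) * c)
  · obtain ⟨w, hw, hfr⟩ := exists_w hb hab c (b - 1) (by omega)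
    refine ⟨w, hw, ?_⟩
    rw [hsplit]
    have hcast : ((b - 1 : ℕ) : ℝ) = b - 1 := by rw [Nat.cast_sub hb]; simp
    rw [hcast] at hfr
    have h2 : Int.fract (c + w * (a / b)) + |(w : ℝ) * η / b| < 1 := by
      rw [hfr]
      have h3 : (b - 1 + Int.fract ((b : ℝ) * c)) / b + |η| < 1 := by
        rw [← lt_sub_iff_add_lt, div_lt_iff₀ hb']
        nlinarith
      linarith [hwη w hw]
    have h4 := fract_add_ge h2
    rw [hfr] at h4
    have h5 : 1 - 1 / (b : ℝ) ≤ (b - 1 + Int.fract ((b : ℝ) * c)) / b := by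
      rw [le_div_iff₀ hb']
      have : (1 - 1 / (b : ℝ)) * b = b - 1 := by field_simp
      linarith
    linarith [hwη w hw]
  · rw [not_lt] at h1
    rcases Nat.lt_or_ge b 2 with hb2 | hb2
    · have : b = 1 := by omega
      subst this
      refine ⟨0, by norm_num, ?_⟩
      have := Int.fract_nonneg (c + ((0 : ℕ) : ℝ) * ((a + η) / ((1 : ℕ) : ℝ)))
      push_cast at this ⊢
      linarith
    · obtain ⟨w, hw, hfr⟩ := exists_w hb hab c (b - 2) (by omega)
      refine ⟨w, hw, ?_⟩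
      rw [hsplit]
      have hcast : ((b - 2 : ℕ) : ℝ) = b - 2 := by rw [Nat.cast_sub hb2]; simp
      rw [hcast] at hfr
      have h2 : Int.fract (c + w * (a / b)) + |(w : ℝ) * η / b| < 1 := by
        rw [hfr]
        have h3 : (b - 2 + Int.fract ((b : ℝ) * c)) / b + |η| < 1 := by
          rw [← lt_sub_iff_add_lt, div_lt_iff₀ hb']
          nlinarith
        linarith [hwη w hw]
      have h4 := fract_add_ge h2
      rw [hfr] at h4
      have h5 : 1 - 1 / (b : ℝ) - |η| ≤ (b - 2 + Int.fract ((b : ℝ) * c)) / b := by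
        rw [le_div_iff₀ hb']
        have : (1 - 1 / (b : ℝ) - |η|) * b = b - 1 - b * |η| := by field_simp
        linarith
      linarith [hwη w hw]

theorem exists_fract_ge_rat' {a b : ℕ} (hb : 0 < b) (hab : Nat.Coprime a b) (c η δ : ℝ)
    (hη : b * |η| < 1 - Int.fract (b * c)) (hδ : 1 - Int.fract (b * c) ≤ δ) :
    ∃ w : ℕ, w < b ∧ 1 - δ - |η| ≤ Int.fract (c + w * ((a + η) / b)) := by
  have hb' : (0 : ℝ) < b := by exact_mod_cast hb
  have hb1 : (1 : ℝ) ≤ b := by exact_mod_cast hb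
  have hη0 := abs_nonneg η
  have hf0 := Int.fract_nonneg ((b : ℝ) * c)
  have hf1 := Int.fract_lt_one ((b : ℝ) * c)
  have hwη : ∀ w : ℕ, w < b → |(w : ℝ) * η / b| ≤ |η| := by
    intro w hw
    have hw' : (w : ℝ) ≤ b := by exact_mod_cast hw.le
    rw [abs_div, abs_mul, Nat.abs_cast, Nat.abs_cast, div_le_iff₀ hb', mul_comm |η|]
    exact mul_le_mul_of_nonneg_right hw' hη0
  have hsplit : ∀ w : ℕ, c + w * ((a + η) / b) = (c + w * (a / b)) + w * η / b := by
    intro w; ring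
  obtain ⟨w, hw, hfr⟩ := exists_w hb hab c (b - 1) (by omega)
  refine ⟨w, hw, ?_⟩
  rw [hsplit]
  have hcast : ((b - 1 : ℕ) : ℝ) = b - 1 := by rw [Nat.cast_sub hb]; simp
  rw [hcast] at hfr
  have h2 : Int.fract (c + w * (a / b)) + |(w : ℝ) * η / b| < 1 := by
    rw [hfr]
    have h3 : (b - 1 + Int.fract ((b : ℝ) * c)) / b + |η| < 1 := by
      rw [← lt_sub_iff_add_lt, div_lt_iff₀ hb']
      nlinarith
    linarith [hwη w hw]
  have h4 := fract_add_ge h2
  rw [hfr] at h4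
  have h5 : 1 - δ ≤ (b - 1 + Int.fract ((b : ℝ) * c)) / b := by
    rw [le_div_iff₀ hb']
    nlinarith
  linarith [hwη w hw]

end Pool.Agent.Lib.MP_a2cf47_nt
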