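import Pool.Agent.Lib.MP_a2cf47_nt.Upper

set_option autoImplicit false

open Real Finset

namespace Pool.Agent.Lib.MP_a2cf47_nt

theorem N_le_step {β α : ℝ} (hβ : 0 < β) (hα : 0 ≤ α) (w : ℕ) (g : ℝ)
    (hg1 : g ≤ Int.fract (2 * (α * √β) - (⌊α / √β⌋₊ + 1) * β + w * β))
    (hw : (w : ℝ) + 1 ≤ α / √β ∨ 0 ≤ g) :
    (N β α : ℝ) ≤ α ^ 2 / 2 - α * √β / 2 + β / 8 - (α / √β - 1 - w) / 2 * g := by
  set n := ⌊α / √β⌋₊ with hn
  have hs : 0 < √β := Real.sqrt_pos.2 hβ
  have hn2 : α / √β < n + 1 := Nat.lt_floor_add_one _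
  have h0 := N_le_pairing hβ hα 0 (Nat.zero_le _)
  simp only [Nat.cast_zero, zero_div, zero_mul, sub_zero] at h0
  rcases lt_or_ge g 0 with hg | hg
  · rcases hw with hw | hw
    · have : (α / √β - 1 - w) / 2 * g ≤ 0 :=
        mul_nonpos_of_nonneg_of_nonpos (by linarith) hg.le
      linarith
    · linarith
  · rcases le_or_gt w n with hwn | hwn
    · have h1 := N_le_pairing hβ hα (n - w) (by omega)
      rw [Nat.cast_sub hwn] at h1
      have e : 2 * (α * √β) - ((n : ℝ) - w + 1) * β = 2 * (α * √β) - (n + 1) * β + w * β := by ring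
      rw [e] at h1
      have h2 : 0 ≤ ((n : ℝ) - w) / 2 := by
        have : (w : ℝ) ≤ n := by exact_mod_cast hwn
        linarith
      have h3 := mul_le_mul_of_nonneg_left hg1 h2
      have h4 : (α / √β - 1 - w) / 2 * g ≤ ((n : ℝ) - w) / 2 * g :=
        mul_le_mul_of_nonneg_right (by linarith) hg
      linarith
    · have h5 : (n : ℝ) + 1 ≤ w := by exact_mod_cast hwn
      have : (α / √β - 1 - w) / 2 * g ≤ 0 :=
        mul_nonpos_of_nonpos_of_nonneg (by linarith) hg
      linarith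

/-- The dichotomy: either the slope is generic, or it is very close to a rational with small
denominator. -/
theorem upper_dichotomy {δ : ℝ} (hδ : 0 < δ) :
    ∃ W : ℕ, 0 < W ∧ ∃ K : ℝ, 0 < K ∧ ∃ α₁ : ℝ, 0 < α₁ ∧ ∀ α : ℝ, α₁ ≤ α →
      ∀ β : ℝ, 9 / 64 ≤ β → β ≤ 64 / 9 →
      ((N β α : ℝ) ≤ α ^ 2 / 2 - α / 2 * (√β + 1 / √β) + δ * α) ∨
      ∃ a b : ℕ, 0 < a ∧ 0 < b ∧ b ≤ W ∧ a ≤ 8 * W ∧ Nat.Coprime a b ∧ |b * β - a| * α ≤ K := by
  obtain ⟨W, hW⟩ := exists_nat_gt (6 / δ)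
  have hW0 : (0 : ℝ) < W := lt_trans (by positivity) hW
  have hWn : 0 < W := by exact_mod_cast hW0
  have hW1 : (1 : ℝ) ≤ W := by exact_mod_cast hWn
  have hWδ : 6 < δ * W := by rw [div_lt_iff₀ hδ] at hW; linarith
  refine ⟨W, hWn, 2 * W / δ, by positivity, max ((W + 3) / δ) (64 / 9 * (2 * W / δ) + 1), by positivity, ?_⟩
  intro α hα β hβ1 hβ2
  have hα1 : (W + 3) / δ ≤ α := le_trans (le_max_left _ _) hα
  have hα2 : 64 / 9 * (2 * W / δ) + 1 ≤ α := le_trans (le_max_right _ _) hα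
  have hα0 : 0 < α := lt_of_lt_of_le (by positivity) hα1
  have hβ : 0 < β := by linarith
  have hs : 0 < √β := Real.sqrt_pos.2 hβ
  have hs3 : 3 / 8 ≤ √β := by
    apply Real.le_sqrt_of_sq_le; norm_num; exact hβ1
  obtain ⟨j, k, hk0, hkW, hjk⟩ := Real.exists_int_int_abs_mul_sub_le β hWn
  set η : ℝ := k * β - j with hη
  have hkr0 : (0 : ℝ) < k := by exact_mod_cast hk0
  have hkr1 : (1 : ℝ) ≤ k := by exact_mod_cast hk0
  have hkrW : (k : ℝ) ≤ W := by exact_mod_cast hkW
  have hηW : |η| ≤ 1 / (W + 1) := hjk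
  have hW12 : 1 / ((W : ℝ) + 1) ≤ 1 / 2 := by
    apply one_div_le_one_div_of_le (by norm_num); linarith
  rcases le_or_gt (2 * W / δ) (|η| * α) with hcase | hcase
  · left
    have hη0 : 0 < |η| := by
      rcases eq_or_lt_of_le (abs_nonneg η) with h | h
      · rw [← h, zero_mul] at hcase
        have : 0 < 2 * W / δ := by positivity
        linarith
      · exact h
    obtain ⟨t, ht1, ht2⟩ := exists_fract_ge (2 * (α * √β) - (⌊α / √β⌋₊ + 1) * β) η
      (abs_pos.1 hη0)
    have hg : 1 - 1 / ((W : ℝ) + 1) ≤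
        Int.fract (2 * (α * √β) - (⌊α / √β⌋₊ + 1) * β + ((k.toNat * t : ℕ) : ℝ) * β) := by
      have hkt : ((k.toNat : ℕ) : ℝ) = k := by
        have : ((k.toNat : ℕ) : ℤ) = k := Int.toNat_of_nonneg hk0.le
        exact_mod_cast this
      have e : 2 * (α * √β) - (⌊α / √β⌋₊ + 1) * β + ((k.toNat * t : ℕ) : ℝ) * β
          = 2 * (α * √β) - (⌊α / √β⌋₊ + 1) * β + t * η + ((t * j : ℤ) : ℝ) := by
        push_cast
        rw [hkt, hη]; ring
      rw [e, Int.fract_add_intCast]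
      linarith
    have hg0 : 0 ≤ 1 - 1 / ((W : ℝ) + 1) := by linarith
    have hfin := N_le_step hβ hα0.le (k.toNat * t) _ hg (Or.inr hg0)
    have hkt : ((k.toNat : ℕ) : ℝ) = k := by
      have : ((k.toNat : ℕ) : ℤ) = k := Int.toNat_of_nonneg hk0.le
      exact_mod_cast this
    have hwb : ((k.toNat * t : ℕ) : ℝ) ≤ δ * α / 2 + W := by
      push_cast
      rw [hkt]
      have h1 : 1 / |η| ≤ δ * α / (2 * W) := by
        rw [div_le_div_iff₀ hη0 (by positivity)]
        rw [div_le_iff₀ hδ] at hcase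
        linarith
      calc (k : ℝ) * t ≤ W * (1 / |η| + 1) :=
            mul_le_mul hkrW ht1 (Nat.cast_nonneg _) hW0.le
        _ ≤ W * (δ * α / (2 * W) + 1) := by
            apply mul_le_mul_of_nonneg_left _ hW0.le; linarith
        _ = δ * α / 2 + W := by field_simp
    set v : ℝ := 1 / √β with hv
    have hαv : α / √β = α * v := by rw [hv]; ring
    have hv8 : v ≤ 8 / 3 := by
      rw [hv, div_le_iff₀ hs]; linarith
    have hv0 : 0 ≤ v := by positivity
    rw [hαv] at hfin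
    set w := ((k.toNat * t : ℕ) : ℝ) with hw
    set r : ℝ := 1 / ((W : ℝ) + 1) with hr
    have hr0 : 0 ≤ r := by positivity
    have hrδ : r ≤ δ / 6 := by
      rw [hr, div_le_div_iff₀ (by positivity) (by norm_num)]
      linarith
    have hw0 : 0 ≤ w := Nat.cast_nonneg _
    have hWα : W + 3 ≤ δ * α := by rw [div_le_iff₀ hδ] at hα1; linarith
    have hvr : α * v * r ≤ α * (8 / 3) * (δ / 6) := by
      apply mul_le_mul (mul_le_mul_of_nonneg_left hv8 hα0.le) hrδ hr0 (by positivity)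
    have h7 : (α * v - 1 - w) / 2 * (1 - r) = α * v / 2 - (α * v * r) / 2 - (1 + w) * (1 - r) / 2 := by
      ring
    have h8 : (1 + w) * (1 - r) ≤ 1 + w := by nlinarith
    rw [h7] at hfin
    have h9 : α / 2 * (√β + v) = α * √β / 2 + α * v / 2 := by ring
    rw [h9]
    nlinarith
  · right
    have hηsmall : |η| < 9 / 64 := by
      have h1 : |η| * (64 / 9 * (2 * W / δ) + 1) < 2 * W / δ := by
        have := mul_le_mul_of_nonneg_left hα2 (abs_nonneg η)
        linarith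
      have h2 : 0 < 2 * W / δ := by positivity
      by_contra hcon
      push Not at hcon
      nlinarith
    have hj0 : 0 < j := by
      have h1 : (j : ℝ) = k * β - η := by rw [hη]; ring
      have h2 : (0 : ℝ) < j := by
        rw [h1]
        have := le_abs_self η
        nlinarith
      exact_mod_cast h2
    have hj8 : j ≤ 8 * W := by
      have h1 : (j : ℝ) = k * β - η := by rw [hη]; ring
      have h2 : (j : ℝ) < 8 * W + 1 := by
        rw [h1]
        have := neg_abs_le η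
        nlinarith
      have h3 : j < 8 * W + 1 := by exact_mod_cast h2
      omega
    obtain ⟨a, ha⟩ := Int.eq_ofNat_of_zero_le hj0.le
    obtain ⟨b, hb⟩ := Int.eq_ofNat_of_zero_le hk0.le
    subst ha hb
    have ha0 : 0 < a := by exact_mod_cast hj0
    have hb0 : 0 < b := by exact_mod_cast hk0
    set g := Nat.gcd a b with hg
    have hg0 : 0 < g := Nat.gcd_pos_of_pos_left _ ha0
    have hga : g * (a / g) = a := Nat.mul_div_cancel' (Nat.gcd_dvd_left a b)
    have hgb : g * (b / g) = b := Nat.mul_div_cancel' (Nat.gcd_dvd_right a b)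
    refine ⟨a / g, b / g, Nat.div_pos (Nat.le_of_dvd ha0 (Nat.gcd_dvd_left a b)) hg0,
      Nat.div_pos (Nat.le_of_dvd hb0 (Nat.gcd_dvd_right a b)) hg0, ?_, ?_,
      Nat.coprime_div_gcd_div_gcd hg0, ?_⟩
    · have : b / g ≤ b := Nat.div_le_self _ _
      omega
    · have : a / g ≤ a := Nat.div_le_self _ _
      omega
    · have h1 : (g : ℝ) * |((b / g : ℕ) : ℝ) * β - ((a / g : ℕ) : ℝ)| = |η| := by
        have hgr : (0 : ℝ) ≤ g := Nat.cast_nonneg _
        have e0 : (g : ℝ) * |((b / g : ℕ) : ℝ) * β - ((a / g : ℕ) : ℝ)|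
            = |(g : ℝ) * (((b / g : ℕ) : ℝ) * β - ((a / g : ℕ) : ℝ))| := by
          rw [abs_mul, abs_of_nonneg hgr]
        rw [e0]
        congr 1
        rw [hη]
        have e1 : (g : ℝ) * ((b / g : ℕ) : ℝ) = b := by exact_mod_cast hgb
        have e2 : (g : ℝ) * ((a / g : ℕ) : ℝ) = a := by exact_mod_cast hga
        push_cast
        rw [mul_sub, ← mul_assoc, e1, e2]
      have hg1 : (1 : ℝ) ≤ g := by exact_mod_cast hg0
      have h2 : |((b / g : ℕ) : ℝ) * β - ((a / g : ℕ) : ℝ)| ≤ |η| := by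
        rw [← h1]
        exact le_mul_of_one_le_left (abs_nonneg _) hg1
      calc _ ≤ |η| * α := mul_le_mul_of_nonneg_right h2 hα0.le
        _ ≤ _ := hcase.le

end Pool.Agent.Lib.MP_a2cf47_nt
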