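import Pool.Agent.Lib.MP_a2cf47_nt.Upper2

set_option autoImplicit false

open Real Finset

namespace Pool.Agent.Lib.MP_a2cf47_nt

/-- basic estimates near `a / b` -/
theorem near_basic {a b : ℕ} (ha : 0 < a) (hb : 0 < b) {K α β : ℝ} (hK : 0 ≤ K)
    (hα : 4 * K + 1 ≤ α) (hβ : |b * β - a| * α ≤ K) (hβ0 : 0 < β) :
    |b * β - a| ≤ 1 / 4 ∧ β ≤ 2 * (a / b) ∧ √((a : ℝ) / b) / 2 ≤ √β ∧
      |√β - √((a : ℝ) / b)| ≤ |b * β - a| / (b * √((a : ℝ) / b)) := by
  have hb' : (0 : ℝ) < b := by exact_mod_cast hb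
  have ha' : (0 : ℝ) < a := by exact_mod_cast ha
  have ha1 : (1 : ℝ) ≤ a := by exact_mod_cast ha
  have hα0 : 0 < α := by linarith
  have h1 : |b * β - a| ≤ 1 / 4 := by
    by_contra hcon
    push Not at hcon
    nlinarith
  have h2 := abs_le.1 h1
  have hs : 0 < √β := Real.sqrt_pos.2 hβ0
  have hs0 : 0 < √((a : ℝ) / b) := Real.sqrt_pos.2 (by positivity)
  have hss : √β ^ 2 = β := Real.sq_sqrt hβ0.le
  have hss0 : √((a : ℝ) / b) ^ 2 = a / b := Real.sq_sqrt (by positivity)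
  refine ⟨h1, ?_, ?_, ?_⟩
  · rw [← mul_div_assoc, le_div_iff₀ hb']; linarith
  · have h3 : (√((a : ℝ) / b) / 2) ^ 2 ≤ √β ^ 2 := by
      rw [hss, div_pow, hss0, div_div, div_le_iff₀ (by positivity)]
      nlinarith
    exact le_of_sq_le_sq h3 hs.le
  · rw [le_div_iff₀ (by positivity)]
    have h4 : b * β - a = b * ((√β - √((a : ℝ) / b)) * (√β + √((a : ℝ) / b))) := by
      have : (√β - √((a : ℝ) / b)) * (√β + √((a : ℝ) / b)) = √β ^ 2 - √((a : ℝ) / b) ^ 2 := by ring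
      rw [this, hss, hss0]; field_simp
    rw [h4, abs_mul, abs_mul, abs_of_pos hb', abs_of_pos (by positivity : 0 < √β + √((a : ℝ) / b))]
    have h5 : 0 ≤ |√β - √((a : ℝ) / b)| := abs_nonneg _
    have h6 : |√β - √((a : ℝ) / b)| * (b * √((a : ℝ) / b))
        ≤ |√β - √((a : ℝ) / b)| * (b * (√β + √((a : ℝ) / b))) := by
      apply mul_le_mul_of_nonneg_left _ h5
      apply mul_le_mul_of_nonneg_left _ hb'.le
      linarith
    linarith

theorem upper_near {a b : ℕ} (ha : 0 < a) (hb : 0 < b) (hab : Nat.Coprime a b) {K : ℝ}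
    (hK : 0 ≤ K) :
    ∃ C α₁ : ℝ, 0 < α₁ ∧ ∀ α : ℝ, α₁ ≤ α → ∀ β : ℝ, 0 < β → |b * β - a| * α ≤ K →
      (N β α : ℝ) ≤ α ^ 2 / 2 - α * ((a + b - 1) / (2 * √((a : ℝ) * b))) + C := by
  have hb' : (0 : ℝ) < b := by exact_mod_cast hb
  have hb1 : (1 : ℝ) ≤ b := by exact_mod_cast hb
  have ha' : (0 : ℝ) < a := by exact_mod_cast ha
  set s0 : ℝ := √((a : ℝ) / b) with hs0def
  have hs0 : 0 < s0 := Real.sqrt_pos.2 (by positivity)
  have hss0 : s0 ^ 2 = a / b := Real.sq_sqrt (by positivity)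
  have hsab : √((a : ℝ) * b) = b * s0 := by
    rw [hs0def, show (a : ℝ) * b = b ^ 2 * (a / b) by field_simp, Real.sqrt_mul (by positivity),
      Real.sqrt_sq hb'.le]
  refine ⟨2 * (a / b) / 8 + b / 2 + 2 * K / s0 + K / (2 * (b * s0)) * (1 + 2 / s0 ^ 2),
    max (4 * K + 1) (max (b * K + 1) (4 * b * s0)), by positivity, ?_⟩
  intro α hα β hβ0 hβ
  have hα1 : 4 * K + 1 ≤ α := le_trans (le_max_left _ _) hα
  have hα2 : b * K + 1 ≤ α := le_trans (le_trans (le_max_left _ _) (le_max_right _ _)) hα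
  have hα3 : 4 * b * s0 ≤ α := le_trans (le_trans (le_max_right _ _) (le_max_right _ _)) hα
  have hα0 : 0 < α := by linarith
  obtain ⟨hη1, hβ2, hs2, hs3⟩ := near_basic ha hb hK hα1 hβ hβ0
  set η : ℝ := b * β - a with hη
  set s : ℝ := √β with hs
  have hs_pos : 0 < s := Real.sqrt_pos.2 hβ0
  have hss : s ^ 2 = β := Real.sq_sqrt hβ0.le
  have hβeq : β = (a + η) / b := by rw [hη]; field_simp; ring
  have hbη : b * |η| < 1 := by
    by_contra hcon
    push Not at hcon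
    have h1 : b * (|η| * α) ≤ b * K := mul_le_mul_of_nonneg_left hβ hb'.le
    nlinarith
  obtain ⟨w, hw, hfr⟩ := exists_fract_ge_rat hb hab (2 * (α * s) - (⌊α / s⌋₊ + 1) * β) η hbη
  rw [← hβeq] at hfr
  have hwb : (w : ℝ) + 1 ≤ b := by exact_mod_cast hw
  have hs_le : s ≤ 2 * s0 := by
    have : s ^ 2 ≤ (2 * s0) ^ 2 := by
      rw [hss, mul_pow, hss0]
      have : 0 < (a : ℝ) / b := by positivity
      linarith
    exact le_of_sq_le_sq this (by positivity)
  have hαs : (b : ℝ) ≤ α / s := by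
    rw [le_div_iff₀ hs_pos]
    nlinarith
  have hfin := N_le_step hβ0 hα0.le w _ hfr (Or.inl (by linarith))
  rw [← hs] at hfin
  set A : ℝ := 1 - 1 / (b : ℝ) with hA
  have hA0 : 0 ≤ A := by
    rw [hA]
    have : 1 / (b : ℝ) ≤ 1 := by rw [div_le_one hb']; exact hb1
    linarith
  have hA1 : A ≤ 1 := by rw [hA]; have : 0 < 1 / (b : ℝ) := by positivity
                         linarith
  have e1 : (α / s - 1 - w) / 2 * (A - 2 * |η|)
      = α / 2 * (A / s) - (1 + w) * A / 2 - (α / s - 1 - w) * |η| := by ring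
  rw [e1] at hfin
  have h1 : (1 + (w : ℝ)) * A / 2 ≤ b / 2 := by
    have : (1 + (w : ℝ)) * A ≤ b * 1 := mul_le_mul (by linarith) hA1 hA0 hb'.le
    linarith
  have hinv : 1 / s ≤ 2 / s0 := by
    rw [div_le_div_iff₀ hs_pos hs0]; linarith
  have h2 : (α / s - 1 - w) * |η| ≤ 2 * K / s0 := by
    have h3 : (α / s - 1 - w) * |η| ≤ α / s * |η| := by
      apply mul_le_mul_of_nonneg_right _ (abs_nonneg _)
      have : (0 : ℝ) ≤ w := Nat.cast_nonneg _
      linarith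
    have h4 : α / s * |η| = (|η| * α) * (1 / s) := by ring
    have h5 : (|η| * α) * (1 / s) ≤ K * (2 / s0) :=
      mul_le_mul hβ hinv (by positivity) hK
    have h6 : K * (2 / s0) = 2 * K / s0 := by ring
    linarith
  -- comparison of the leading coefficient
  have h7 : (a + b - 1 : ℝ) / (2 * √((a : ℝ) * b)) = (s0 + A / s0) / 2 := by
    rw [hsab, hA]
    have h8 : (a : ℝ) = b * s0 ^ 2 := by rw [hss0]; field_simp
    rw [h8]; field_simp; ring
  have h9 : |(s + A / s) - (s0 + A / s0)| ≤ |s - s0| * (1 + 2 / s0 ^ 2) := by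
    have e2 : (s + A / s) - (s0 + A / s0) = (s - s0) * (1 - A / (s * s0)) := by
      field_simp; ring
    rw [e2, abs_mul]
    apply mul_le_mul_of_nonneg_left _ (abs_nonneg _)
    have h10 : 0 ≤ A / (s * s0) := by positivity
    have h11 : A / (s * s0) ≤ 2 / s0 ^ 2 := by
      rw [div_le_div_iff₀ (by positivity) (by positivity)]
      calc A * s0 ^ 2 ≤ 1 * s0 ^ 2 := mul_le_mul_of_nonneg_right hA1 (by positivity)
        _ = s0 * s0 := by ring
        _ ≤ (2 * s) * s0 := mul_le_mul_of_nonneg_right (by linarith) hs0.le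
        _ = 2 * (s * s0) := by ring
    rw [abs_le]
    constructor <;> linarith
  have h12 : α / 2 * |(s + A / s) - (s0 + A / s0)| ≤ K / (2 * (b * s0)) * (1 + 2 / s0 ^ 2) := by
    calc α / 2 * |(s + A / s) - (s0 + A / s0)|
        ≤ α / 2 * (|η| / (b * s0) * (1 + 2 / s0 ^ 2)) := by
          apply mul_le_mul_of_nonneg_left _ (by positivity)
          exact le_trans h9 (mul_le_mul_of_nonneg_right hs3 (by positivity))
      _ = (|η| * α) * (1 / (2 * (b * s0)) * (1 + 2 / s0 ^ 2)) := by ring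
      _ ≤ K * (1 / (2 * (b * s0)) * (1 + 2 / s0 ^ 2)) :=
          mul_le_mul_of_nonneg_right hβ (by positivity)
      _ = K / (2 * (b * s0)) * (1 + 2 / s0 ^ 2) := by ring
  have h13 : -(|(s + A / s) - (s0 + A / s0)|) ≤ (s + A / s) - (s0 + A / s0) := neg_abs_le _
  have h14 : α / 2 * (-(|(s + A / s) - (s0 + A / s0)|)) ≤ α / 2 * ((s + A / s) - (s0 + A / s0)) :=
    mul_le_mul_of_nonneg_left h13 (by positivity)
  rw [h7]
  have e3 : α * ((s0 + A / s0) / 2) = α / 2 * (s0 + A / s0) := by ring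
  have e4 : α / 2 * ((s + A / s) - (s0 + A / s0))
      = α * s / 2 + α / 2 * (A / s) - α / 2 * (s0 + A / s0) := by ring
  rw [e3]
  have h15 : β / 8 ≤ 2 * (a / b) / 8 := by linarith
  linarith

/-- refined bound for a rational slope whose phase is bad -/
theorem upper_near_phase {a b : ℕ} (ha : 0 < a) (hb : 0 < b) (hab : Nat.Coprime a b)
    {K δ₁ δ₂ : ℝ} (hK : 0 ≤ K) (hδ₁ : 0 < δ₁) (hδ₂ : δ₂ ≤ 1 / 2) :
    ∃ C α₁ : ℝ, 0 < α₁ ∧ ∀ α : ℝ, α₁ ≤ α → ∀ β : ℝ, 0 < β → |b * β - a| * α ≤ K →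
      δ₁ ≤ 1 - Int.fract (2 * (α * √((a : ℝ) * b))) →
      1 - Int.fract (2 * (α * √((a : ℝ) * b))) ≤ δ₂ →
      (N β α : ℝ) ≤ α ^ 2 / 2 - α + 2 * δ₂ / √((a : ℝ) / b) * α + C := by
  have hb' : (0 : ℝ) < b := by exact_mod_cast hb
  have hb1 : (1 : ℝ) ≤ b := by exact_mod_cast hb
  have ha' : (0 : ℝ) < a := by exact_mod_cast ha
  set s0 : ℝ := √((a : ℝ) / b) with hs0def
  have hs0 : 0 < s0 := Real.sqrt_pos.2 (by positivity)
  have hss0 : s0 ^ 2 = a / b := Real.sq_sqrt (by positivity)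
  have hsab : √((a : ℝ) * b) = b * s0 := by
    rw [hs0def, show (a : ℝ) * b = b ^ 2 * (a / b) by field_simp, Real.sqrt_mul (by positivity),
      Real.sqrt_sq hb'.le]
  rw [hsab]
  refine ⟨2 * (a / b) / 8 + b / 2 + K / s0,
    max (4 * K + 1) (max (2 * b * K / δ₁ + 1) (2 * (2 * K ^ 2 / (b * s0 ^ 3) + K) / δ₁ + 1)),
    by positivity, ?_⟩
  intro α hα β hβ0 hβ hph1 hph2
  have hα1 : 4 * K + 1 ≤ α := le_trans (le_max_left _ _) hα
  have hα2 : 2 * b * K / δ₁ + 1 ≤ α := le_trans (le_trans (le_max_left _ _) (le_max_right _ _)) hα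
  have hα3 : 2 * (2 * K ^ 2 / (b * s0 ^ 3) + K) / δ₁ + 1 ≤ α :=
    le_trans (le_trans (le_max_right _ _) (le_max_right _ _)) hα
  have hα0 : 0 < α := by linarith
  obtain ⟨hη1, hβ2, hs2, hs3⟩ := near_basic ha hb hK hα1 hβ hβ0
  set η : ℝ := b * β - a with hη
  set s : ℝ := √β with hs
  have hs_pos : 0 < s := Real.sqrt_pos.2 hβ0
  have hss : s ^ 2 = β := Real.sq_sqrt hβ0.le
  have hβeq : β = (a + η) / b := by rw [hη]; field_simp; ring
  have hinv : 1 / s ≤ 2 / s0 := by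
    rw [div_le_div_iff₀ hs_pos hs0]; linarith
  have hηα : |η| ≤ K / α := by rw [le_div_iff₀ hα0]; exact hβ
  set n : ℕ := ⌊α / s⌋₊ with hn
  have hn1 : (n : ℝ) ≤ α / s := Nat.floor_le (by positivity)
  have hn2 : α / s < n + 1 := Nat.lt_floor_add_one _
  -- the phase
  set c : ℝ := 2 * (α * s) - (n + 1) * β with hc
  set x : ℝ := 2 * (α * (b * s0)) with hx
  set e : ℝ := 2 * b * α * s - (n + 1) * η - x with he
  have hbc : b * c = (x + e) + ((-((n + 1) * a : ℕ) : ℤ) : ℝ) := by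
    rw [hc, he, hβeq]; push_cast; field_simp; ring
  have hfrbc : Int.fract (b * c) = Int.fract (x + e) := by
    rw [hbc, Int.fract_add_intCast]
  have hηs : η = b * (s ^ 2 - s0 ^ 2) := by rw [hss, hss0, hη]; field_simp
  have he1 : e = b * α * (s - s0) ^ 2 / s - (n + 1 - α / s) * η := by
    rw [he, hx]
    have : b * α * (s - s0) ^ 2 / s = 2 * b * α * s - α / s * η - 2 * (α * (b * s0)) := by
      rw [hηs]; field_simp; ring
    rw [this]; ring
  have hsq : (s - s0) ^ 2 ≤ (|η| / (b * s0)) ^ 2 := by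
    rw [← sq_abs (s - s0)]
    exact pow_le_pow_left₀ (abs_nonneg _) hs3 2
  have he2 : |e| ≤ (2 * K ^ 2 / (b * s0 ^ 3) + K) / α := by
    rw [he1]
    have h1 : |b * α * (s - s0) ^ 2 / s - (n + 1 - α / s) * η|
        ≤ b * α * (s - s0) ^ 2 / s + |η| := by
      have h2 : 0 ≤ b * α * (s - s0) ^ 2 / s := by positivity
      have h3 : |(n + 1 - α / s) * η| ≤ |η| := by
        rw [abs_mul]
        have h4 : |(n : ℝ) + 1 - α / s| ≤ 1 := by
          rw [abs_le]; constructor <;> linarith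
        calc _ ≤ 1 * |η| := mul_le_mul_of_nonneg_right h4 (abs_nonneg _)
          _ = |η| := one_mul _
      calc _ ≤ |b * α * (s - s0) ^ 2 / s| + |(n + 1 - α / s) * η| := abs_sub _ _
        _ ≤ _ := by rw [abs_of_nonneg h2]; linarith
    have h5 : b * α * (s - s0) ^ 2 / s ≤ 2 * K ^ 2 / (b * s0 ^ 3) / α := by
      calc b * α * (s - s0) ^ 2 / s = b * α * (s - s0) ^ 2 * (1 / s) := by ring
        _ ≤ b * α * (|η| / (b * s0)) ^ 2 * (2 / s0) := by
            apply mul_le_mul _ hinv (by positivity) (by positivity)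
            exact mul_le_mul_of_nonneg_left hsq (by positivity)
        _ = 2 * (|η| * α) ^ 2 / (b * s0 ^ 3) / α := by field_simp
        _ ≤ 2 * K ^ 2 / (b * s0 ^ 3) / α := by
            apply div_le_div_of_nonneg_right _ hα0.le
            apply div_le_div_of_nonneg_right _ (by positivity)
            have : (|η| * α) ^ 2 ≤ K ^ 2 := pow_le_pow_left₀ (by positivity) hβ 2
            linarith
    rw [add_div]
    linarith
  have he3 : |e| < δ₁ / 2 := by
    have h1 : 2 * (2 * K ^ 2 / (b * s0 ^ 3) + K) / δ₁ < α := by linarith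
    rw [div_lt_iff₀ hδ₁] at h1
    have h2 : (2 * K ^ 2 / (b * s0 ^ 3) + K) / α < δ₁ / 2 := by
      rw [div_lt_iff₀ hα0]; linarith
    linarith
  have hfx0 := Int.fract_nonneg x
  have hfxe : Int.fract (x + e) = Int.fract x + e := by
    have hx2 : x = ⌊x⌋ + Int.fract x := (Int.floor_add_fract x).symm
    have h1 := abs_lt.1 he3
    rw [Int.fract_eq_iff]
    exact ⟨by linarith, by linarith, ⟨⌊x⌋, by linarith⟩⟩
  have hlow : b * |η| < 1 - Int.fract (b * c) := by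
    rw [hfrbc, hfxe]
    have h1 := abs_lt.1 he3
    have h2 : b * |η| < δ₁ / 2 := by
      have h3 : 2 * b * K / δ₁ < α := by linarith
      rw [div_lt_iff₀ hδ₁] at h3
      have h4 : b * |η| ≤ b * (K / α) := mul_le_mul_of_nonneg_left hηα hb'.le
      have h5 : b * (K / α) < δ₁ / 2 := by
        rw [← mul_div_assoc, div_lt_iff₀ hα0]; linarith
      linarith
    linarith
  have hup : 1 - Int.fract (b * c) ≤ 2 * δ₂ := by
    rw [hfrbc, hfxe]
    have h1 := abs_lt.1 he3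
    linarith
  obtain ⟨w, hw, hfr⟩ := exists_fract_ge_rat' hb hab c η (2 * δ₂) hlow hup
  rw [← hβeq] at hfr
  have hwb : (w : ℝ) + 1 ≤ b := by exact_mod_cast hw
  have hw0 : (0 : ℝ) ≤ w := Nat.cast_nonneg _
  have hδ₂0 : 0 < δ₂ := by linarith
  -- use g = max 0 (..)
  have hfr2 : max 0 (1 - 2 * δ₂ - |η|) ≤ Int.fract (c + w * β) :=
    max_le (Int.fract_nonneg _) hfr
  have hfin := N_le_step hβ0 hα0.le w _ hfr2 (Or.inr (le_max_left _ _))
  rw [← hs] at hfin
  set g : ℝ := max 0 (1 - 2 * δ₂ - |η|) with hg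
  have hg0 : 0 ≤ g := le_max_left _ _
  have hg1 : g ≤ 1 := max_le zero_le_one (by have := abs_nonneg η; linarith)
  have hg2 : 1 - 2 * δ₂ - |η| ≤ g := le_max_right _ _
  have e1 : (α / s - 1 - w) / 2 * g = α / s / 2 * g - (1 + w) * g / 2 := by ring
  rw [e1] at hfin
  have h1 : (1 + (w : ℝ)) * g / 2 ≤ b / 2 := by
    have : (1 + (w : ℝ)) * g ≤ b * 1 := mul_le_mul (by linarith) hg1 hg0 hb'.le
    linarith
  have hαs0 : 0 ≤ α / s / 2 := by positivity
  have h2 : α / s / 2 * (1 - 2 * δ₂ - |η|) ≤ α / s / 2 * g := mul_le_mul_of_nonneg_left hg2 hαs0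
  have h3 : α / s / 2 * (1 - 2 * δ₂ - |η|) = α / s / 2 - δ₂ * α * (1 / s) - (|η| * α) / 2 * (1 / s) := by
    ring
  have h4 : δ₂ * α * (1 / s) ≤ δ₂ * α * (2 / s0) := mul_le_mul_of_nonneg_left hinv (by positivity)
  have h5 : (|η| * α) / 2 * (1 / s) ≤ K / 2 * (2 / s0) :=
    mul_le_mul (by linarith) hinv (by positivity) (by positivity)
  have h6 : 2 ≤ s + 1 / s := by
    have : s + 1 / s - 2 = (s - 1) ^ 2 / s := by field_simp; ring
    have h7 : 0 ≤ (s - 1) ^ 2 / s := by positivity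
    linarith
  have h8 : α / 2 * 2 ≤ α / 2 * (s + 1 / s) := mul_le_mul_of_nonneg_left h6 (by positivity)
  have h9 : α / 2 * (s + 1 / s) = α * s / 2 + α / s / 2 := by ring
  have h10 : δ₂ * α * (2 / s0) = 2 * δ₂ / s0 * α := by ring
  have h11 : K / 2 * (2 / s0) = K / s0 := by ring
  have h15 : β / 8 ≤ 2 * (a / b) / 8 := by linarith
  linarith

end Pool.Agent.Lib.MP_a2cf47_nt
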